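import Pool.Agent.Shared.CookLevin
import Pool.Agent.Shared.PolyTimeConv

set_option autoImplicit false

namespace Pool.Agent.Lib.MP_8f56c4_lc.H3

open Pool.Agent.Shared.PolyTime Pool.Agent.Shared.CookLevin N487b59b3 N68a2faeb

section dec

variable {α β : Type} [N487b59b3 α] [N487b59b3 β]

@[fun_prop] theorem fstR_pt {h : α → List Bool} (hh : PT h) : PT (fun a => fstR (h a)) :=
  (RP.toBits.post (RP.fstR.post hh.raw)).congr fun _ => (enc_listBool _).symm

@[fun_prop] theorem sndR_pt {h : α → List Bool} (hh : PT h) : PT (fun a => sndR (h a)) :=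
  (RP.toBits.post (RP.sndR.post hh.raw)).congr fun _ => (enc_listBool _).symm

theorem length_fstR_sndR (x : List Bool) : (fstR x).length + (sndR x).length ≤ x.length := by
  fun_induction sndR x with
  | case1 b l ih => simp [fstR]; omega
  | case2 l => simp [fstR]
  | case3 x h1 h2 => simpa using length_fstR_le x

/-- one step of the block parser -/
def bstep (s : List Bool × List (List Bool)) : List Bool × List (List Bool) :=
  if s.1.isEmpty then s else (sndR s.1, s.2 ++ [fstR s.1])

/-- split a string into delimited blocks -/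
def blocks (y : List Bool) : List (List Bool) := (bstep^[y.length] (y, [])).2

@[fun_prop] theorem blocks_pt {h : α → List Bool} (hh : PT h) : PT (fun a => blocks (h a)) := by
  have := PT.iterate_grow (f := fun (_ : α) => bstep) (n := fun a => (h a).length)
    (s0 := fun a => (h a, [])) (by unfold bstep; fun_prop) (by fun_prop) (by fun_prop)
    (by fun_prop) (g := fun _ => 1) (by fun_prop) (fun a s => by
      unfold bstep
      split_ifs
      · omega
      · have := length_fstR_sndR s.1
        rw [sz_prod s]
        simp only [sz_pair, sz_append, sz_cons, sz_nil, sz_listBool]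
        omega)
  exact this.snd

theorem bstep_iter (l : List (List Bool)) : ∀ (n : ℕ) (acc : List (List Bool)), l.length ≤ n →
    bstep^[n] ((l.map delimit).flatten, acc) = ([], acc ++ l) := by
  induction l with
  | nil =>
    intro n acc _
    simp only [List.map_nil, List.flatten_nil, List.append_nil]
    exact Function.iterate_fixed rfl n
  | cons x l ih =>
    intro n acc h
    obtain ⟨n, rfl⟩ : ∃ k, n = k + 1 := ⟨n - 1, by simp at h; omega⟩
    rw [Function.iterate_succ_apply]
    have e : bstep ((List.map delimit (x :: l)).flatten, acc)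
        = ((l.map delimit).flatten, acc ++ [x]) := by
      unfold bstep
      rw [if_neg (by cases x <;> simp [delimit])]
      simp
    rw [e, ih n _ (by simpa using h)]
    simp

theorem blocks_flatten (l : List (List Bool)) : blocks (l.map delimit).flatten = l := by
  unfold blocks
  rw [bstep_iter l _ _ (length_le_length_flatten_delimit l)]
  simp

/-- types with a polynomial-time decoder -/
class Dec (α : Type) [N487b59b3 α] where
  dec : List Bool → α
  pt : PT dec
  dec_enc : ∀ a, dec (bitEncode a) = a

@[fun_prop] theorem dec_pt [Dec β] {h : α → List Bool} (hh : PT h) :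
    PT (fun a => (Dec.dec (h a) : β)) := Dec.pt.comp' hh

instance decBool : Dec Bool := ⟨fun y => y.headD false, by fun_prop, fun _ => rfl⟩

instance decNat : Dec ℕ := ⟨fun y => val y, by fun_prop, fun n => by rw [enc_nat, val_bits]⟩

instance decProd [Dec α] [Dec β] : Dec (α × β) :=
  ⟨fun y => (Dec.dec (fstR y), Dec.dec (sndR y)), by fun_prop, fun p => by
    rw [show p = (p.1, p.2) from rfl, enc_pair]
    simp [Dec.dec_enc]⟩

instance decList [Dec α] : Dec (List α) :=
  ⟨fun y => (blocks y).map Dec.dec, PT.map (h := fun _ x => Dec.dec x) (by fun_prop) (by fun_prop),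
    fun l => by
      change (blocks ((l.map bitEncode).map delimit).flatten).map Dec.dec = l
      rw [blocks_flatten, List.map_map]
      conv_rhs => rw [← List.map_id l]
      exact List.map_congr_left fun a _ => Dec.dec_enc a⟩

open Classical in
/-- a polynomial-time relation with polynomially bounded witnesses defines a language in NP -/
theorem exists_NP [Dec α] [Dec β] (R : α → β → Bool) (hR : PT fun p : α × β => R p.1 p.2)
    (g : α → ℕ) (hg : PB g) (hb : ∀ a b, R a b = true → sz b ≤ g a) :
    ∃ A ∈ NP, ∀ y, A y = decide (∃ b, R (Dec.dec y) b = true) := by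
  obtain ⟨q, hq⟩ : PB (fun y : List Bool => g (Dec.dec y)) := hg.comp Dec.pt
  refine ⟨fun y => decide (∃ b, R (Dec.dec y) b = true),
    ⟨q.comp (3 * Polynomial.X), fun p => R (Dec.dec p.1) (Dec.dec p.2), PT.isPolyTime ?_,
      fun y => ?_⟩, fun _ => rfl⟩
  · exact hR.comp' (f := fun p : List Bool × List Bool => (Dec.dec p.1, Dec.dec p.2))
      (by fun_prop)
  · rw [decide_eq_true_iff]
    constructor
    · rintro ⟨b, h⟩
      refine ⟨bitEncode b, ?_, by simpa [Dec.dec_enc] using h⟩
      have h1 := (hb _ _ h).trans (hq y)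
      have h2 : (bitEncode y).length = 3 * y.length := sz_listBool y
      rw [h2] at h1
      simpa [Polynomial.eval_comp, sz] using h1
    · rintro ⟨w, -, h⟩
      exact ⟨_, h⟩

/-- the characteristic vectors of `A` can be listed in polynomial time -/
def Enum (A : List Bool → Bool) : Prop :=
  ∃ e : List (List Bool) → List (List Bool), PT e ∧ ∀ xs, xs.map A ∈ e xs

open Classical in
theorem exists_enum (H : ∀ A ∈ NP, Enum A) [Dec α] [Dec β] (R : α → β → Bool)
    (hR : PT fun p : α × β => R p.1 p.2)
    (g : α → ℕ) (hg : PB g) (hb : ∀ a b, R a b = true → sz b ≤ g a) :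
    ∃ e : List α → List (List Bool), PT e ∧
      ∀ l, l.map (fun a => decide (∃ b, R a b = true)) ∈ e l := by
  obtain ⟨A, hA, h⟩ := exists_NP R hR g hg hb
  obtain ⟨e, he, h1⟩ := H A hA
  refine ⟨fun l => e (l.map bitEncode), he.comp' (PT.map (h := fun _ x => bitEncode x)
    (by fun_prop) (by fun_prop)), fun l => ?_⟩
  have := h1 (l.map bitEncode)
  rw [List.map_map] at this
  refine (List.map_congr_left fun a _ => ?_ :
    l.map (A ∘ bitEncode) = l.map (fun a => decide (∃ b, R a b = true))) ▸ this
  simp [h, Dec.dec_enc]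

end dec

/-- polynomials are eventually below `2 ^ m` -/
theorem exists_poly_le (K : Polynomial ℕ) (c : ℕ) :
    ∃ C, ∀ m, C ≤ m → K.eval (c * m + c) ≤ 2 ^ m := by
  have h : ∀ K : Polynomial ℕ, (fun m : ℕ => ((K.eval (c * m + c) : ℕ) : ℝ)) =o[Filter.atTop]
      fun m : ℕ => (2 : ℝ) ^ m := by
    intro K
    induction K using Polynomial.induction_on' with
    | add p q hp hq => simpa using hp.add hq
    | monomial k a =>
      have h1 := (isLittleO_pow_const_const_pow_of_one_lt (R := ℝ) k
        (by norm_num : (1 : ℝ) < 2)).const_mul_left ((a : ℝ) * (2 * c) ^ k)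
      refine Asymptotics.IsBigO.trans_isLittleO ?_ h1
      refine Asymptotics.IsBigO.of_bound 1 ?_
      filter_upwards [Filter.eventually_ge_atTop 1] with m hm
      have hm' : (1 : ℝ) ≤ m := by exact_mod_cast hm
      have hc : (0 : ℝ) ≤ c := by positivity
      rw [Real.norm_of_nonneg (by positivity), Real.norm_of_nonneg (by positivity), one_mul,
        Polynomial.eval_monomial, mul_assoc, ← mul_pow]
      push_cast
      gcongr
      nlinarith
  have h2 := (h K).bound one_pos
  obtain ⟨C, hC⟩ := Filter.eventually_atTop.1 h2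
  refine ⟨C, fun m hm => ?_⟩
  have := hC m hm
  rw [Real.norm_of_nonneg (by positivity), Real.norm_of_nonneg (by positivity), one_mul] at this
  exact_mod_cast this

theorem PB_le_two_pow {α : Type} [N487b59b3 α] {g : α → ℕ} (hg : PB g) (c : ℕ) :
    ∃ C, ∀ m, C ≤ m → ∀ a, sz a ≤ c * m + c → g a ≤ 2 ^ m := by
  obtain ⟨K, hK⟩ := hg
  obtain ⟨C, hC⟩ := exists_poly_le K c
  exact ⟨C, fun m hm a ha => (hK a).trans ((eval_mono K ha).trans (hC m hm))⟩

/-! ### A prime between `n` and `2 n` -/

/-- the least prime above `n` -/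
def prm (n : ℕ) : ℕ :=
  ((List.range (2 * n + 3)).find? fun t => decide (n < t) && decide (2 ≤ t) &&
    (List.range (2 * n + 3)).all fun d => decide (d < 2) || decide (t ≤ d) || t % d != 0).getD 0

@[fun_prop] theorem prm_pt {α : Type} [N487b59b3 α] {n : α → ℕ} (hn : PT n) (hb : PB n) :
    PT (fun a => prm (n a)) := by
  have h1 : PT (fun a => List.range (2 * n a + 3)) := by fun_prop
  unfold prm
  refine PT.getD (PT.find? h1 ?_) (by fun_prop)
  refine PT.and (by fun_prop) (PT.all (h1.comp' (f := Prod.fst) (by fun_prop)) (by fun_prop))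

theorem prm_spec (n : ℕ) : (prm n).Prime ∧ n < prm n ∧ prm n ≤ 2 * n + 2 := by
  unfold prm
  generalize hf : (fun t => decide (n < t) && decide (2 ≤ t) &&
    (List.range (2 * n + 3)).all fun d => decide (d < 2) || decide (t ≤ d) || t % d != 0) = f
  rcases h : (List.range (2 * n + 3)).find? f with _ | t
  · exfalso
    obtain ⟨p, hp, h1, h2⟩ := Nat.exists_prime_lt_and_le_two_mul (n + 1) (by omega)
    rw [List.find?_eq_none] at h
    refine h p (by simp; omega) ?_
    subst hf
    simp only [Bool.and_eq_true, decide_eq_true_eq, List.all_eq_true, Bool.or_eq_true,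
      bne_iff_ne]
    refine ⟨⟨by omega, hp.two_le⟩, fun d _ => ?_⟩
    by_contra hc
    push Not at hc
    have := (Nat.dvd_prime hp).1 (Nat.dvd_of_mod_eq_zero hc.2)
    omega
  · have h1 := List.find?_some h
    have h2 := List.mem_of_find?_eq_some h
    subst hf
    simp only [Bool.and_eq_true, decide_eq_true_eq, List.all_eq_true, Bool.or_eq_true,
      bne_iff_ne, List.mem_range] at h1 h2
    simp only [Option.getD_some]
    refine ⟨Nat.prime_def_lt.2 ⟨h1.1.2, fun d hd hdvd => ?_⟩, h1.1.1, by omega⟩
    have h3 := h1.2 d (by omega)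
    have h4 := Nat.mod_eq_zero_of_dvd hdvd
    have h5 : d ≠ 0 := by rintro rfl; simp at hdvd; omega
    omega

@[fun_prop] theorem prm_pb {α : Type} [N487b59b3 α] {n : α → ℕ} (hb : PB n) :
    PB (fun a => prm (n a)) :=
  PB.mono (g := fun a => 2 * n a + 2) (by fun_prop) fun a => (prm_spec _).2.2

/-! ### Polynomial hashing -/

/-- the polynomial with the first `n` digits of `x` in base `q` as coefficients, at `y` -/
def ev (q n y x : ℕ) : ℕ :=
  ((List.range n).map fun i => y ^ min i n * (x / q ^ min i n % q)).sum

@[fun_prop] theorem ev_pt {α : Type} [N487b59b3 α] {q n y x : α → ℕ} (hq : PT q) (hn : PT n)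
    (hb : PB n) (hy : PT y) (hx : PT x) : PT (fun a => ev (q a) (n a) (y a) (x a)) := by
  have h1 : PB (fun p : α × ℕ => min p.2 (n p.1)) :=
    PB.min_right (hb.comp (f := Prod.fst) (by fun_prop)) _
  unfold ev
  refine PT.sum (PT.map (h := fun a i => y a ^ min i (n a) * (x a / q a ^ min i (n a) % q a))
    (by fun_prop) ?_)
  refine PT.mul (PT.pow (by fun_prop) (by fun_prop) h1) (PT.mod (PT.div (by fun_prop)
    (PT.pow (by fun_prop) (by fun_prop) h1)) (by fun_prop))

theorem ev_eq (q n y x : ℕ) :
    ev q n y x = ∑ i ∈ Finset.range n, y ^ i * (x / q ^ i % q) := by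
  unfold ev
  rw [← List.sum_toFinset _ List.nodup_range, List.toFinset_range]
  exact Finset.sum_congr rfl fun i hi => by
    rw [min_eq_left (Finset.mem_range.1 hi).le]

theorem ev_succ (q n y x : ℕ) : ev q (n + 1) y x = x % q + y * ev q n y (x / q) := by
  rw [ev_eq, ev_eq, Finset.sum_range_succ', Finset.mul_sum, add_comm]
  simp only [pow_zero, one_mul, Nat.div_one]
  congr 1
  refine Finset.sum_congr rfl fun i _ => ?_
  rw [Nat.div_div_eq_div_mul, pow_succ' q, pow_succ' y, mul_assoc]

theorem eq_of_digits {q n x x' : ℕ} (hx : x < q ^ n) (hx' : x' < q ^ n)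
    (h : ∀ i < n, x / q ^ i % q = x' / q ^ i % q) : x = x' := by
  have : ∀ k ≤ n, x % q ^ k = x' % q ^ k := by
    intro k hk
    induction k with
    | zero => simp [Nat.mod_one]
    | succ k ih => rw [Nat.mod_pow_succ, Nat.mod_pow_succ, ih (by omega), h k (by omega)]
  have h1 := this n le_rfl
  rwa [Nat.mod_eq_of_lt hx, Nat.mod_eq_of_lt hx'] at h1

theorem card_coll {q n x x' : ℕ} (hq : q.Prime) (hx : x < q ^ n) (hx' : x' < q ^ n)
    (hne : x ≠ x') :
    ((Finset.range q).filter fun y => ev q n y x % q = ev q n y x' % q).card ≤ n := by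
  have := Fact.mk hq
  let P : ℕ → Polynomial (ZMod q) := fun x =>
    ∑ i ∈ Finset.range n, Polynomial.monomial i ((x / q ^ i % q : ℕ) : ZMod q)
  have hP : ∀ x y : ℕ, (P x).eval (y : ZMod q) = (ev q n y x : ZMod q) := by
    intro x y
    rw [ev_eq]
    simp only [P, Polynomial.eval_finsetSum, Polynomial.eval_monomial]
    push_cast
    exact Finset.sum_congr rfl fun i _ => mul_comm _ _
  have hc : ∀ x i, i < n → (P x).coeff i = ((x / q ^ i % q : ℕ) : ZMod q) := by
    intro x i hi
    simp only [P, Polynomial.finsetSum_coeff, Polynomial.coeff_monomial]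
    rw [Finset.sum_ite_eq' , if_pos (Finset.mem_range.2 hi)]
  have hd : ∀ x, (P x).natDegree ≤ n := fun x =>
    Polynomial.natDegree_sum_le_of_forall_le _ _ fun i hi =>
      (Polynomial.natDegree_monomial_le _).trans (Finset.mem_range.1 hi).le
  have h0 : P x - P x' ≠ 0 := by
    intro h
    refine hne (eq_of_digits hx hx' fun i hi => ?_)
    have h1 : (P x).coeff i = (P x').coeff i := by rw [sub_eq_zero.1 h]
    rw [hc x i hi, hc x' i hi, ZMod.natCast_eq_natCast_iff'] at h1
    simpa using h1
  calc _ ≤ (P x - P x').roots.toFinset.card := by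
        refine Finset.card_le_card_of_injOn (fun y : ℕ => (y : ZMod q)) (fun y hy => ?_)
          (fun y hy y' hy' e => ?_)
        · simp only [Finset.coe_filter, Finset.mem_range, Set.mem_ofPred_eq] at hy
          simp only [Finset.mem_coe, Multiset.mem_toFinset, Polynomial.mem_roots h0,
            Polynomial.IsRoot.def, Polynomial.eval_sub, hP, sub_eq_zero]
          exact (ZMod.natCast_eq_natCast_iff' _ _ _).2 hy.2
        · simp only [Finset.coe_filter, Finset.mem_range, Set.mem_ofPred_eq] at hy hy'
          have := (ZMod.natCast_eq_natCast_iff' _ _ _).1 e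
          rwa [Nat.mod_eq_of_lt hy.1, Nat.mod_eq_of_lt hy'.1] at this
    _ ≤ (P x - P x').roots.card := Multiset.toFinset_card_le _
    _ ≤ (P x - P x').natDegree := Polynomial.card_roots' _
    _ ≤ n := (Polynomial.natDegree_sub_le _ _).trans (max_le (hd x) (hd x'))

open Classical in
/-- few evaluation points fail to separate the members of `S` -/
theorem card_bad {q n : ℕ} (hq : q.Prime) (S : Finset ℕ) (hS : ∀ x ∈ S, x < q ^ n) :
    ((Finset.range q).filter fun y => ¬ Set.InjOn (fun x => ev q n y x % q) S).card
      ≤ S.card ^ 2 * n := by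
  calc _ ≤ ((S ×ˢ S).biUnion fun p => (Finset.range q).filter fun y =>
          p.1 ≠ p.2 ∧ ev q n y p.1 % q = ev q n y p.2 % q).card := by
        refine Finset.card_le_card fun y hy => ?_
        rw [Finset.mem_filter] at hy
        obtain ⟨h1, h2⟩ := hy
        unfold Set.InjOn at h2
        push Not at h2
        obtain ⟨x, hx, x', hx', h3, h4⟩ := h2
        exact Finset.mem_biUnion.2 ⟨(x, x'), Finset.mem_product.2 ⟨hx, hx'⟩,
          Finset.mem_filter.2 ⟨h1, h4, h3⟩⟩
    _ ≤ (S ×ˢ S).card * n := by
        refine Finset.card_biUnion_le_card_mul _ _ _ fun p hp => ?_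
        rw [Finset.mem_product] at hp
        by_cases h : p.1 = p.2
        · simp [h]
        · refine le_trans (Finset.card_le_card fun y hy => ?_)
            (card_coll hq (hS _ hp.1) (hS _ hp.2) h)
          rw [Finset.mem_filter] at hy ⊢
          exact ⟨hy.1, hy.2.2⟩
    _ = _ := by rw [Finset.card_product, sq]

end Pool.Agent.Lib.MP_8f56c4_lc.H3
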