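import Mathlib
import Pool.Prelude.Def_F_458e953d

set_option autoImplicit false

namespace Pool.Agent.Lib.MP_8f56c4_lc.H3

open N68a2faeb

/-- Functions computable in polynomial time with non-adaptive queries to an oracle `A` in NP:
`Q x` is the list of queries on input `x`, and `E` computes the output from `x` and the answers. -/
def FPtt : Set (List Bool → List Bool) :=
  {f | ∃ A ∈ NP, ∃ (Q : List Bool → List (List Bool)) (E : List Bool × List Bool → List Bool),
    IsPolyTime Q ∧ IsPolyTime E ∧ ∀ x, f x = E (x, (Q x).map A)}

/-- The answers to the first `k` adaptive queries: the next query is `Q (x, a)`, where `a` is the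
list of the answers obtained so far. -/
def answers (A : List Bool → Bool) (Q : List Bool × List Bool → List Bool) (x : List Bool) :
    ℕ → List Bool
  | 0 => []
  | k + 1 => answers A Q x k ++ [A (Q (x, answers A Q x k))]

/-- Functions computable in polynomial time with logarithmically many adaptive queries to an
oracle `A` in NP. -/
def FPlog : Set (List Bool → List Bool) :=
  {f | ∃ A ∈ NP, ∃ (c : ℕ) (Q E : List Bool × List Bool → List Bool),
    IsPolyTime Q ∧ IsPolyTime E ∧
      ∀ x, f x = E (x, answers A Q x (c * Nat.log 2 x.length + c))}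

/-- `g` is an `f`-approximator for `A`. -/
def IsApproximator (A : List Bool → Bool) (f : ℕ → ℝ) (g : List (List Bool) → List Bool) : Prop :=
  ∀ xs : List (List Bool), xs ≠ [] → f ((xs.map List.length).foldr max 0) ≤ xs.length →
    (g xs).length = xs.length ∧ g xs ≠ xs.map A

/-- `A` has a polynomial-time `f`-approximator for some `f = O(log n)`. -/
def LogApproximable (A : List Bool → Bool) : Prop :=
  ∃ (f : ℕ → ℝ) (g : List (List Bool) → List Bool),
    (f =O[Filter.atTop] fun n : ℕ => Real.log n) ∧ IsPolyTime g ∧ IsApproximator A f g

open Classical in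
/-- The set of codes of satisfiable CNF formulas; the literal `(b, v)` is true under the
assignment `τ` when `τ v = b`. -/
noncomputable def SAT : List Bool → Bool := fun x =>
  decide (∃ φ : List (List (Bool × ℕ)), N487b59b3.bitEncode φ = x ∧
    ∃ τ : ℕ → Bool, ∀ C ∈ φ, ∃ l ∈ C, τ l.2 = l.1)

end Pool.Agent.Lib.MP_8f56c4_lc.H3
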