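import Pool.Agent.Lib.MP_8f56c4_lc.H3.Search
import Pool.Agent.Lib.MP_8f56c4_lc.H3.Defs

set_option autoImplicit false
set_option linter.unusedSectionVars false

namespace Pool.Agent.Lib.MP_8f56c4_lc.H3

open Pool.Agent.Shared.PolyTime Pool.Agent.Shared.CookLevin N487b59b3 N68a2faeb

theorem log_bound {f : ℕ → ℝ} (h : f =O[Filter.atTop] fun n : ℕ => Real.log n) :
    ∃ c : ℕ, ∀ n, f n ≤ (c * n.size + c : ℕ) := by
  obtain ⟨C, hC0, hC⟩ := h.exists_pos
  obtain ⟨N, hN⟩ := Filter.eventually_atTop.1 hC.bound
  obtain ⟨c, hc⟩ := exists_nat_ge (C + ∑ i ∈ Finset.range N, |f i|)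
  have h0 : 0 ≤ ∑ i ∈ Finset.range N, |f i| := Finset.sum_nonneg fun i _ => abs_nonneg _
  refine ⟨c, fun n => ?_⟩
  push_cast
  have hs : (0 : ℝ) ≤ n.size := by positivity
  rcases lt_or_ge n N with hn | hn
  · have h1 : |f n| ≤ ∑ i ∈ Finset.range N, |f i| :=
      Finset.single_le_sum (f := fun i => |f i|) (fun i _ => abs_nonneg _) (Finset.mem_range.2 hn)
    have h2 := le_abs_self (f n)
    nlinarith
  · have h1 := hN n hn
    rw [Real.norm_eq_abs, Real.norm_of_nonneg (Real.log_natCast_nonneg n)] at h1
    have h2 : Real.log n ≤ n.size := by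
      rcases Nat.eq_zero_or_pos n with rfl | hpos
      · simp
      · have h3 : (n : ℝ) ≤ 2 ^ n.size := by exact_mod_cast (Nat.lt_size_self n).le
        have h4 := Real.log_le_log (by exact_mod_cast hpos) h3
        rw [Real.log_pow] at h4
        have h5 : Real.log 2 ≤ 1 := by
          have := Real.log_le_sub_one_of_pos (x := 2) two_pos
          linarith
        nlinarith
    have h3 := le_abs_self (f n)
    nlinarith

theorem card_small (l k : ℕ) :
    ((Finset.range l).powerset.filter fun s => s.card < k).card ^ 4 ≤ 2 ^ l * 8 ^ (4 * k) := by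
  generalize hX : ((Finset.range l).powerset.filter fun s => s.card < k).card = X
  have h1 : X * 8 ^ l ≤ 9 ^ l * 8 ^ k := by
    have h2 := Finset.sum_pow_mul_eq_add_pow (1 : ℕ) 8 (Finset.range l)
    simp only [one_pow, one_mul, Finset.card_range] at h2
    rw [show (9 : ℕ) = 1 + 8 from rfl, ← h2, Finset.sum_mul, ← hX, Finset.card_eq_sum_ones,
      Finset.sum_mul]
    refine le_trans (Finset.sum_le_sum fun s hs => ?_)
      (Finset.sum_le_sum_of_subset (Finset.filter_subset _ _))
    rw [one_mul, ← pow_add]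
    have := (Finset.mem_filter.1 hs).2
    exact Nat.pow_le_pow_right (by norm_num) (by omega)
  have h2 : (X * 8 ^ l) ^ 4 ≤ (9 ^ l * 8 ^ k) ^ 4 := Nat.pow_le_pow_left h1 4
  have h3 : (9 ^ l) ^ 4 ≤ 2 ^ l * (8 ^ l) ^ 4 := by
    rw [← pow_mul, ← pow_mul, mul_comm l 4, pow_mul, pow_mul, ← mul_pow]
    exact Nat.pow_le_pow_left (by norm_num) l
  refine Nat.le_of_mul_le_mul_right (c := (8 ^ l) ^ 4) ?_ (by positivity)
  rw [mul_pow, mul_pow] at h2
  calc _ ≤ _ := h2
    _ ≤ 2 ^ l * (8 ^ l) ^ 4 * (8 ^ k) ^ 4 := Nat.mul_le_mul_right _ h3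
    _ = _ := by rw [← pow_mul 8 k 4, mul_comm k 4]; ring

theorem eq_of_count {v w : List Bool} (h : List.Forall₂ (fun b b' => b = true → b' = true) v w)
    (hc : v.count true = w.count true) : v = w := by
  have hle : ∀ {v w : List Bool}, List.Forall₂ (fun b b' => b = true → b' = true) v w →
      v.count true ≤ w.count true := by
    intro v w h
    induction h with
    | nil => simp
    | @cons a b v w h1 _ ih => cases a <;> cases b <;> simp_all <;> omega
  induction h with
  | nil => rfl
  | @cons a b v w h1 h2 ih =>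
    have := hle h2
    cases a <;> cases b
    · rw [ih (by simpa using hc)]
    · simp at hc; omega
    · simp at h1
    · rw [ih (by simpa using hc)]

theorem val_inj {v w : List Bool} (hl : v.length = w.length) (h : val v = val w) : v = w := by
  induction v generalizing w with
  | nil => exact (List.length_eq_zero_iff.1 hl.symm).symm
  | cons a v ih =>
    cases w with
    | nil => simp at hl
    | cons b w =>
      simp only [val] at h
      have h1 : a = b := by cases a <;> cases b <;> simp at h ⊢ <;> omega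
      subst h1
      rw [ih (by simpa using hl) (by omega)]

/-- hash value of a vector -/
def hsh (q y : ℕ) (v : List Bool) : ℕ := ev q v.length y (val v) % q

/-- bit `t` of the hash value -/
def hbit (q y : ℕ) (v : List Bool) (t : ℕ) : Bool := (hsh q y v).bits.getD t false

/-- queries -/
abbrev Qry := List (List Bool) × ℕ × ℕ × ℕ × ℕ

/-- `ws` certifies `j` members and bit `t` of the hash value is set -/
def R3 (p : Polynomial ℕ) (R : List Bool × List Bool → Bool) (a : Qry)
    (ws : List (Bool × List Bool)) : Bool :=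
  decide (ws.length = a.1.length) &&
    ((a.1.zip ws).all fun e => decide (e.2.2.length ≤ p.eval e.1.length) &&
      (!e.2.1 || R (e.1, e.2.2))) &&
    decide ((ws.map Prod.fst).count true = a.2.1) &&
    hbit a.2.2.1 a.2.2.2.1 (ws.map Prod.fst) a.2.2.2.2

section pt

variable {α : Type} [N487b59b3 α]

@[fun_prop] theorem hsh_pt {q y : α → ℕ} {v : α → List Bool} (hq : PT q) (hy : PT y)
    (hv : PT v) : PT (fun a => hsh (q a) (y a) (v a)) := by unfold hsh; fun_prop

@[fun_prop] theorem hbit_pt {q y t : α → ℕ} {v : α → List Bool} (hq : PT q) (hy : PT y)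
    (hv : PT v) (ht : PT t) : PT (fun a => hbit (q a) (y a) (v a) (t a)) := by
  unfold hbit; fun_prop

end pt

theorem R3_pt (p : Polynomial ℕ) {R : List Bool × List Bool → Bool} (hR : PT R) :
    PT fun e : Qry × List (Bool × List Bool) => R3 p R e.1 e.2 := by
  have h1 : PT fun e : Qry × List (Bool × List Bool) => e.2.map Prod.fst :=
    PT.map (h := fun _ (x : Bool × List Bool) => x.1) (by fun_prop) (by fun_prop)
  unfold R3
  refine PT.and (PT.and (PT.and (by fun_prop) (PT.all (by fun_prop) (PT.and
    (PT.decide_le (by fun_prop) (pt_eval p (by fun_prop)))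
    (PT.or (by fun_prop) (hR.comp' (by fun_prop)))))) (by fun_prop)) (by fun_prop)

theorem R3_bound (p : Polynomial ℕ) (R : List Bool × List Bool → Bool) (a : Qry)
    (ws : List (Bool × List Bool)) (h : R3 p R a ws = true) :
    sz ws ≤ a.1.length * (2 * (3 + 3 * p.eval (sz a.1)) + 1) := by
  simp only [R3, Bool.and_eq_true, decide_eq_true_eq, List.all_eq_true] at h
  obtain ⟨⟨⟨h1, h2⟩, -⟩, -⟩ := h
  rw [← h1]
  refine sz_list_le fun e he => ?_
  obtain ⟨i, hi, rfl⟩ := List.getElem_of_mem he
  have h3 : (a.1[i]'(h1 ▸ hi), ws[i]) ∈ a.1.zip ws := by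
    rw [List.mem_iff_getElem]
    exact ⟨i, by simp; omega, by simp⟩
  have h4 := (h2 _ h3).1
  have h5 := sz_mem (List.getElem_mem (l := a.1) (h1 ▸ hi))
  rw [sz_listBool] at h5
  have h6 := eval_mono p (m := (a.1[i]'(h1 ▸ hi)).length) (n := sz a.1) (by omega)
  rw [sz_prod, sz_bool, sz_listBool]
  simp only at h4
  omega

theorem R3_iff {p : Polynomial ℕ} {R : List Bool × List Bool → Bool} {L : List Bool → Bool}
    (hL : ∀ x, L x = true ↔ ∃ w : List Bool, w.length ≤ p.eval x.length ∧ R (x, w) = true)
    (ys : List (List Bool)) (q y t : ℕ) :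
    (∃ ws, R3 p R (ys, (ys.map L).count true, q, y, t) ws = true) ↔
      hbit q y (ys.map L) t = true := by
  simp only [R3, Bool.and_eq_true, decide_eq_true_eq, List.all_eq_true]
  constructor
  · rintro ⟨ws, ⟨⟨h1, h2⟩, h3⟩, h4⟩
    rwa [eq_of_count ?_ h3] at h4
    rw [List.forall₂_iff_get]
    refine ⟨by simp [h1], fun i hi hi' hb => ?_⟩
    simp only [List.length_map] at hi hi'
    have h5 : (ys[i], ws[i]) ∈ ys.zip ws := by
      rw [List.mem_iff_getElem]
      exact ⟨i, by simp; omega, by simp⟩
    have h6 := h2 _ h5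
    simp only [List.get_eq_getElem, List.getElem_map] at hb ⊢
    exact (hL _).2 ⟨_, h6.1, by simpa [hb] using h6.2⟩
  · intro h
    have : ∀ x, ∃ w : List Bool, w.length ≤ p.eval x.length ∧ (!L x || R (x, w)) = true := by
      intro x
      cases hx : L x
      · exact ⟨[], by simp, by simp⟩
      · simpa using (hL x).1 hx
    choose w hw using this
    have e : (ys.map fun x => (L x, w x)).map Prod.fst = ys.map L := by simp
    refine ⟨ys.map fun x => (L x, w x), ⟨⟨by simp, fun e he => ?_⟩, by rw [e]⟩, by rwa [e]⟩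
    rw [List.mem_iff_getElem] at he
    obtain ⟨i, hi, rfl⟩ := he
    simpa using hw _

section alg

variable (c : ℕ) (W : Polynomial ℕ) (g : List (List Bool) → List Bool) (ρ : Qry → List Bool)

/-- number of queries from which the approximator works -/
def kp (m : ℕ) : ℕ := c * sz (W.eval (9 * m + 9)) + c + 1

/-- survivors per census -/
def K0 (m : ℕ) : ℕ := 8 * (m + 1) ^ 2 * 64 ^ kp c W m

/-- survivors -/
def Kp (m : ℕ) : ℕ := (m + 1) * K0 c W m

/-- the prime -/
def qq (m : ℕ) : ℕ := prm ((2 * Kp c W m) ^ 2 * (m + 1))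

/-- the positions selected by a mask -/
def sel (l z : ℕ) : List ℕ := (List.range l).filter fun t => (wit z).getD t false

/-- `v` is not excluded by the approximator -/
def survive (m : ℕ) (ys : List (List Bool)) (y : ℕ) (v : List Bool) : Bool :=
  (List.range (4 * qq c W m + 1)).all fun z =>
    decide ((sel (sz (qq c W m)) z).length < kp c W m) ||
      g ((sel (sz (qq c W m)) z).map fun t => ρ (ys, v.count true, qq c W m, y, t))
        != (sel (sz (qq c W m)) z).map (hbit (qq c W m) y v)

/-- an evaluation point that separates the members of `D` -/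
def sepr (q : ℕ) (D : List (List Bool)) : ℕ :=
  ((List.range q).find? fun y => decide (D.map (hsh q y)).Nodup).getD 0

/-- the extensions of the right length -/
def exts (n : ℕ) (C : List (List Bool)) : List (List Bool) :=
  ((C.flatMap fun v => [v ++ [true], v ++ [false]]).filter fun v => decide (v.length = n)).dedup

/-- one round -/
def prune (m : ℕ) (ys : List (List Bool)) (C : List (List Bool)) : List (List Bool) :=
  ((exts ys.length C).filter
    (survive c W g ρ m ys (sepr (qq c W m) (exts ys.length C)))).take (Kp c W m)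

/-- the enumerator -/
def enumA (xs : List (List Bool)) (m : ℕ) : List (List Bool) :=
  (List.range xs.length).foldl (fun C i => prune c W g ρ m (xs.take (i + 1)) C) [[]]

variable {c W g ρ}

theorem Kp_pos (m : ℕ) : 0 < Kp c W m := by unfold Kp K0; positivity

section pt

variable {α : Type} [N487b59b3 α] {m : α → ℕ}

@[fun_prop] theorem kp_pt (hm : PT m) : PT (fun a => kp c W (m a)) := by
  have := pt_eval W (g := fun a => 9 * m a + 9) (by fun_prop)
  unfold kp; fun_prop
@[fun_prop] theorem kp_pb (hm : PT m) : PB (fun a => kp c W (m a)) := by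
  have := pt_eval W (g := fun a => 9 * m a + 9) (by fun_prop)
  unfold kp; fun_prop
@[fun_prop] theorem Kp_pt (hm : PT m) : PT (fun a => Kp c W (m a)) := by
  unfold Kp K0
  exact PT.mul (by fun_prop) (PT.mul (PT.mul (by fun_prop)
    (PT.pow (by fun_prop) (by fun_prop) (by fun_prop)))
    (PT.pow (by fun_prop) (by fun_prop) (by fun_prop)))
@[fun_prop] theorem Kp_pb (bm : PB m) : PB (fun a => Kp c W (m a)) := by
  have h1 := pb_eval W (g := fun a => 9 * m a + 9) (by fun_prop)
  have h2 : PB (fun a => 64 ^ kp c W (m a)) := by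
    refine PB.mono (g := fun a => ((2 * W.eval (9 * m a + 9) + 1) ^ 6) ^ c * 64 ^ (c + 1))
      (by fun_prop) fun a => ?_
    unfold kp
    rw [add_assoc, pow_add, mul_comm c, pow_mul]
    refine Nat.mul_le_mul_right _ (Nat.pow_le_pow_left ?_ c)
    rw [show (64 : ℕ) = 2 ^ 6 from rfl, ← pow_mul, mul_comm 6, pow_mul]
    refine Nat.pow_le_pow_left ?_ 6
    generalize W.eval (9 * m a + 9) = x
    rw [sz_nat]
    rcases h : x.size with _ | k
    · simp
    · have := Nat.lt_size.1 (show k < x.size by omega)
      rw [pow_succ]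
      omega
  unfold Kp K0; fun_prop
@[fun_prop] theorem qq_pt (hm : PT m) (bm : PB m) : PT (fun a => qq c W (m a)) := by
  unfold qq
  exact prm_pt (PT.mul (PT.pow (by fun_prop) (by fun_prop) (by fun_prop)) (by fun_prop))
    (by fun_prop)
@[fun_prop] theorem qq_pb (bm : PB m) : PB (fun a => qq c W (m a)) := by unfold qq; fun_prop

@[fun_prop] theorem sel_pt {l z : α → ℕ} (hl : PT l) (bl : PB l) (hz : PT z) :
    PT (fun a => sel (l a) (z a)) := by
  have h1 : PT (fun a => List.range (l a)) := by fun_prop
  unfold sel; fun_prop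

theorem survive_pt (hg : PT g) (hρ : PT ρ) {ys : α → List (List Bool)} {y : α → ℕ}
    {v : α → List Bool} (hm : PT m) (bm : PB m) (hys : PT ys) (hy : PT y) (hv : PT v) :
    PT (fun a => survive c W g ρ (m a) (ys a) (y a) (v a)) := by
  have hq : PT (fun a => qq c W (m a)) := by fun_prop
  have hk : PT (fun a => kp c W (m a)) := by fun_prop
  have h1 : PT (fun a => List.range (4 * qq c W (m a) + 1)) := by fun_prop
  have h2 : PT (fun p : α × ℕ => sel (sz (qq c W (m p.1))) p.2) :=
    sel_pt (PT.sz (hq.comp' (by fun_prop))) (PB.sz (hq.comp' (by fun_prop))) (by fun_prop)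
  have hq2 : PT (fun p : (α × ℕ) × ℕ => qq c W (m p.1.1)) := hq.comp' (by fun_prop)
  unfold survive
  refine PT.all h1 (PT.or (PT.decide_lt h2.length (hk.comp' (by fun_prop)))
    (PT.bne (hg.comp' (PT.map (h := fun (p : α × ℕ) t =>
      ρ (ys p.1, (v p.1).count true, qq c W (m p.1), y p.1, t)) h2 (hρ.comp' ?_)))
    (PT.map (h := fun (p : α × ℕ) => hbit (qq c W (m p.1)) (y p.1) (v p.1)) h2
      (hbit_pt hq2 (by fun_prop) (by fun_prop) (by fun_prop)))))
  exact PT.pair (by fun_prop) (PT.pair (by fun_prop) (PT.pair hq2 (by fun_prop)))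

@[fun_prop] theorem sepr_pt {q : α → ℕ} {D : α → List (List Bool)} (hq : PT q) (bq : PB q)
    (hD : PT D) : PT (fun a => sepr (q a) (D a)) := by
  have h1 : PT (fun a => List.range (q a)) := by fun_prop
  unfold sepr
  exact PT.getD (PT.find? h1 (PT.decide_nodup (PT.map (h := fun (p : α × ℕ) => hsh (q p.1) p.2)
    (by fun_prop) (by fun_prop)))) (by fun_prop)

@[fun_prop] theorem exts_pt {n : α → ℕ} {C : α → List (List Bool)} (hn : PT n) (hC : PT C) :
    PT (fun a => exts (n a) (C a)) := by
  unfold exts; fun_prop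

theorem prune_pt (hg : PT g) (hρ : PT ρ) {ys C : α → List (List Bool)} (hm : PT m) (bm : PB m)
    (hys : PT ys) (hC : PT C) : PT (fun a => prune c W g ρ (m a) (ys a) (C a)) := by
  have h1 : PT (fun a => sepr (qq c W (m a)) (exts (ys a).length (C a))) := by fun_prop
  unfold prune
  exact PT.take (by fun_prop) (PT.filter (by fun_prop) (survive_pt hg hρ (by fun_prop)
    (bm.comp (f := Prod.fst) (by fun_prop)) (by fun_prop) (h1.comp' (by fun_prop)) (by fun_prop)))

end pt

theorem mem_exts {n : ℕ} {C : List (List Bool)} {v : List Bool} (h : v ∈ exts n C) :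
    v.length = n := by
  simp only [exts, List.mem_dedup, List.mem_filter, decide_eq_true_eq] at h
  exact h.2

theorem length_exts (n : ℕ) (C : List (List Bool)) : (exts n C).length ≤ 2 * C.length := by
  refine (List.dedup_sublist _).length_le.trans ((List.length_filter_le _ _).trans ?_)
  induction C with
  | nil => simp
  | cons v C ih => simp only [List.flatMap_cons, List.length_append, List.length_cons,
      List.length_nil]; omega

theorem enumA_pt {α : Type} [N487b59b3 α] {m : α → ℕ} (hg : PT g) (hρ : PT ρ)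
    {xs : α → List (List Bool)} (hm : PT m) (bm : PB m) (hxs : PT xs) :
    PT (fun a => enumA c W g ρ (xs a) (m a)) := by
  unfold enumA
  refine PT.foldl_inv (f := fun a C i => prune c W g ρ (m a) ((xs a).take (i + 1)) C)
    (prune_pt hg hρ (by fun_prop) (bm.comp (f := Prod.fst) (by fun_prop)) (by fun_prop)
      (by fun_prop)) (by fun_prop) (by fun_prop)
    (fun a C => C.length ≤ Kp c W (m a) ∧ ∀ v ∈ C, v.length ≤ (xs a).length)
    (fun a => ⟨Kp_pos _, by simp⟩) (fun a C i _ _ => ⟨by simp [prune], fun v hv => ?_⟩)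
    (B := fun a => Kp c W (m a) * (2 * (3 * (xs a).length) + 1)) (by fun_prop) fun a C h => ?_
  · rw [mem_exts (List.mem_filter.1 (List.mem_of_mem_take hv)).1]
    simp
  · exact (sz_list_le fun v hv => by rw [sz_listBool]; have := h.2 v hv; omega).trans
      (Nat.mul_le_mul_right _ h.1)

theorem sepr_spec {q n : ℕ} (hq : q.Prime) {D : List (List Bool)} (hD : D.Nodup)
    (hn : ∀ v ∈ D, v.length = n) (h : D.length ^ 2 * n < q) :
    sepr q D < q ∧ (D.map (hsh q (sepr q D))).Nodup := by
  classical
  unfold sepr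
  rcases h1 : (List.range q).find? _ with _ | t
  · exfalso
    rw [List.find?_eq_none] at h1
    have h2 := card_bad (n := n) hq (D.map val).toFinset (fun x hx => by
      obtain ⟨v, hv, rfl⟩ := List.mem_map.1 (List.mem_toFinset.1 hx)
      exact (val_lt v).trans_le (hn v hv ▸ Nat.pow_le_pow_left hq.two_le _))
    rw [Finset.filter_true_of_mem, Finset.card_range] at h2
    · have h3 : (D.map val).toFinset.card ≤ D.length := by
        simpa using List.toFinset_card_le (D.map val)
      have h4 := Nat.mul_le_mul_right n (Nat.pow_le_pow_left h3 2)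
      omega
    · intro y hy hinj
      refine h1 y (by simpa using hy) ?_
      rw [decide_eq_true_eq]
      refine List.Nodup.map_on (fun v hv w hw e => ?_) hD
      refine val_inj ((hn v hv).trans (hn w hw).symm) (hinj (by simp; exact ⟨v, hv, rfl⟩)
        (by simp; exact ⟨w, hw, rfl⟩) ?_)
      simpa [hsh, hn v hv, hn w hw] using e
  · have h2 := List.find?_some h1
    have h3 := List.mem_of_find?_eq_some h1
    simp only [List.mem_range, decide_eq_true_eq] at h2 h3
    exact ⟨h3, h2⟩

theorem foldr_max_le {l : List ℕ} {B : ℕ} (h : ∀ x ∈ l, x ≤ B) : l.foldr max 0 ≤ B := by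
  induction l with
  | nil => simp
  | cons x l ih =>
    simp only [List.foldr_cons]
    exact max_le (h x (by simp)) (ih fun y hy => h y (by simp [hy]))

section correct

variable {A : List Bool → Bool} {f : ℕ → ℝ} (hf : ∀ n, f n ≤ (c * n.size + c : ℕ))
  (hA : IsApproximator A f g) (hW : ∀ a, (ρ a).length ≤ W.eval (sz a))
  {m : ℕ} (hm : sz (qq c W m) ≤ m)

include hf hA hW hm

theorem approx_sel {ys : List (List Bool)} (hys : sz ys ≤ m) {j y : ℕ} (hj : j ≤ m)
    (hy : y < qq c W m) (z : ℕ) (hz : kp c W m ≤ (sel (sz (qq c W m)) z).length) :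
    (g ((sel (sz (qq c W m)) z).map fun t => ρ (ys, j, qq c W m, y, t))).length
      = (sel (sz (qq c W m)) z).length ∧
    g ((sel (sz (qq c W m)) z).map fun t => ρ (ys, j, qq c W m, y, t))
      ≠ (sel (sz (qq c W m)) z).map fun t => A (ρ (ys, j, qq c W m, y, t)) := by
  have := hA ((sel (sz (qq c W m)) z).map fun t => ρ (ys, j, qq c W m, y, t)) ?_ ?_
  · simpa [Function.comp_def] using this
  · intro h
    rw [List.map_eq_nil_iff] at h
    rw [h, kp] at hz
    simp at hz
  · refine (hf _).trans ?_
    rw [List.length_map]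
    refine Nat.cast_le.2 (le_trans ?_ hz)
    have h1 : ((((sel (sz (qq c W m)) z).map fun t => ρ (ys, j, qq c W m, y, t)).map
        List.length).foldr max 0) ≤ W.eval (9 * m + 9) := by
      refine foldr_max_le fun x hx => ?_
      simp only [List.map_map, List.mem_map, Function.comp] at hx
      obtain ⟨t, ht, rfl⟩ := hx
      refine (hW _).trans (eval_mono W ?_)
      have h2 : t < sz (qq c W m) := List.mem_range.1 (List.mem_filter.1 ht).1
      have h3 := sz_nat_le t
      have h4 := sz_nat_le j
      have h5 := sz_nat_mono hy.le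
      simp only [sz_pair]
      omega
    have h2 := Nat.mul_le_mul_left c (Nat.size_le_size h1)
    rw [kp, sz_nat (W.eval (9 * m + 9))]
    omega

omit hf hA hW hm in
theorem census_arith {K k l q X : ℕ} (hK : K ^ 2 = 64 * (m + 1) ^ 4 * 8 ^ (4 * k))
    (h5 : 2 ^ l ≤ 2 * q) (h6 : q ≤ 2 * ((2 * ((m + 1) * K)) ^ 2 * (m + 1)) + 2)
    (h4 : X ^ 4 ≤ 2 ^ l * 8 ^ (4 * k)) : X ≤ K := by
  refine (Nat.pow_le_pow_iff_left (by norm_num : 4 ≠ 0)).1 (h4.trans ?_)
  have h8 : 1 ≤ (m + 1) ^ 3 * K ^ 2 := by
    rw [hK]
    exact Nat.succ_le_of_lt (by positivity)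
  have h9 : 2 ^ l ≤ 64 * (m + 1) ^ 4 * K ^ 2 := by
    have e1 : (2 * ((m + 1) * K)) ^ 2 * (m + 1) = 4 * ((m + 1) ^ 3 * K ^ 2) := by ring
    have e2 : 64 * (m + 1) ^ 4 * K ^ 2 = 64 * (m + 1) * ((m + 1) ^ 3 * K ^ 2) := by ring
    rw [e1] at h6
    rw [e2]
    nlinarith
  calc _ ≤ 64 * (m + 1) ^ 4 * K ^ 2 * 8 ^ (4 * k) := Nat.mul_le_mul_right _ h9
    _ = K ^ 2 * (64 * (m + 1) ^ 4 * 8 ^ (4 * k)) := by ring
    _ = _ := by rw [← hK]; ring

theorem card_census {ys : List (List Bool)} (hys : sz ys ≤ m) {j y : ℕ} (hj : j ≤ m)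
    (hy : y < qq c W m) (F : Finset (List Bool)) (hinj : Set.InjOn (hsh (qq c W m) y) F)
    (hF : ∀ v ∈ F, v.count true = j ∧ survive c W g ρ m ys y v = true) :
    F.card ≤ K0 c W m := by
  classical
  have hq0 : 0 < qq c W m := by omega
  let s : List Bool → Finset ℕ := fun v =>
    (Finset.range (sz (qq c W m))).filter fun t => hbit (qq c W m) y v t = true
  have h1 : (F.image s).card = F.card := by
    refine Finset.card_image_of_injOn fun v hv w hw e => hinj hv hw ?_
    have h2 : ∀ v, (hsh (qq c W m) y v).size ≤ sz (qq c W m) := fun v => by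
      rw [sz_nat]; exact Nat.size_le_size (Nat.mod_lt _ hq0).le
    rw [← val_map_getD (h2 v), ← val_map_getD (h2 w)]
    congr 1
    refine List.map_congr_left fun t ht => ?_
    have h3 : t ∈ s v ↔ t ∈ s w := by rw [e]
    simp only [s, Finset.mem_filter, Finset.mem_range, List.mem_range.1 ht, true_and] at h3
    exact Bool.eq_iff_iff.2 h3
  have h2 : (F.image s).shatterer ⊆
      (Finset.range (sz (qq c W m))).powerset.filter fun s => s.card < kp c W m := by
    intro T hT
    rw [Finset.mem_shatterer] at hT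
    have hsub : T ⊆ Finset.range (sz (qq c W m)) := by
      obtain ⟨u, hu, h⟩ := hT.exists_superset
      obtain ⟨v, -, rfl⟩ := Finset.mem_image.1 hu
      exact h.trans (Finset.filter_subset _ _)
    refine Finset.mem_filter.2 ⟨Finset.mem_powerset.2 hsub, ?_⟩
    by_contra hk
    obtain ⟨z, hz, hw⟩ := exists_wit ((List.range (sz (qq c W m))).map fun t => decide (t ∈ T))
    have hsel : ∀ t, t ∈ sel (sz (qq c W m)) z ↔ t ∈ T := by
      intro t
      simp only [sel, hw, List.mem_filter, List.mem_range]
      constructor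
      · rintro ⟨h3, h4⟩
        rw [List.getD_eq_getElem _ _ (by simpa using h3)] at h4
        simpa using h4
      · intro h3
        have h4 := Finset.mem_range.1 (hsub h3)
        rw [List.getD_eq_getElem _ _ (by simpa using h4)]
        simpa using ⟨h4, h3⟩
    have hnd : (sel (sz (qq c W m)) z).Nodup := List.nodup_range.filter _
    have hlen : (sel (sz (qq c W m)) z).length = T.card := by
      rw [← List.toFinset_card_of_nodup hnd]
      congr 1
      ext t
      simp [hsel]
    obtain ⟨h3, -⟩ := approx_sel hf hA hW hm hys hj hy z (by omega)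
    obtain ⟨u, hu, h4⟩ := hT (Finset.filter_subset (fun t =>
      (g ((sel (sz (qq c W m)) z).map fun t => ρ (ys, j, qq c W m, y, t))).getD
        ((sel (sz (qq c W m)) z).idxOf t) false = true) T)
    obtain ⟨v, hv, rfl⟩ := Finset.mem_image.1 hu
    obtain ⟨h5, h6⟩ := hF v hv
    simp only [survive, List.all_eq_true, List.mem_range, Bool.or_eq_true, decide_eq_true_eq,
      bne_iff_ne, h5] at h6
    have hz' : z < 4 * qq c W m + 1 := by
      simp only [List.length_map, List.length_range] at hz
      rw [sz_nat] at hz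
      rcases h : (qq c W m).size with _ | k
      · rw [Nat.size_eq_zero] at h; omega
      · have := Nat.lt_size.1 (show k < (qq c W m).size by omega)
        rw [h, pow_succ, pow_succ] at hz
        omega
    refine (h6 z hz').resolve_left (by omega) (List.ext_getElem (by simpa using h3)
      fun i hi hi' => ?_)
    have hi2 : i < (sel (sz (qq c W m)) z).length := by simpa using hi'
    have h7 := (hsel _).1 (List.getElem_mem hi2)
    have h8 := Finset.ext_iff.1 h4 (sel (sz (qq c W m)) z)[i]
    simp only [s, Finset.mem_inter, Finset.mem_filter, h7, true_and, hsub h7,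
      hnd.idxOf_getElem, List.getD_eq_getElem _ _ hi] at h8
    rw [List.getElem_map]
    exact Bool.eq_iff_iff.2 h8.symm
  have h3 := (Finset.card_le_card_shatterer (F.image s)).trans (Finset.card_le_card h2)
  rw [h1] at h3
  have h4 := (Nat.pow_le_pow_left h3 4).trans (card_small _ _)
  have h5 : 2 ^ sz (qq c W m) ≤ 2 * qq c W m := by
    rw [sz_nat]
    rcases h : (qq c W m).size with _ | k
    · rw [Nat.size_eq_zero] at h; omega
    · have := Nat.lt_size.1 (show k < (qq c W m).size by omega)
      rw [pow_succ]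
      omega
  have h7 : K0 c W m ^ 2 = 64 * (m + 1) ^ 4 * 8 ^ (4 * kp c W m) := by
    unfold K0
    generalize kp c W m = k
    rw [show (64 : ℕ) ^ k = 8 ^ (2 * k) by rw [pow_mul]; norm_num]
    ring
  exact census_arith h7 h5 (prm_spec _).2.2 h4

theorem prune_complete {L : List Bool → Bool}
    (hL : ∀ ys q y t, A (ρ (ys, (ys.map L).count true, q, y, t)) = hbit q y (ys.map L) t)
    {ys C : List (List Bool)} (hys : sz ys ≤ m) (hC : C.length ≤ Kp c W m)
    (h : ys.map L ∈ exts ys.length C) : ys.map L ∈ prune c W g ρ m ys C := by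
  classical
  have hlen := (length_le_sz ys).trans hys
  have hnd : (exts ys.length C).Nodup := List.nodup_dedup _
  obtain ⟨h1, h2⟩ := sepr_spec (q := qq c W m) (prm_spec _).1 hnd (fun v hv => mem_exts hv) (by
    refine lt_of_le_of_lt ?_ (prm_spec _).2.1
    have := length_exts ys.length C
    exact Nat.mul_le_mul (Nat.pow_le_pow_left (by omega) 2) (by omega))
  unfold prune
  generalize sepr (qq c W m) (exts ys.length C) = y at h1 h2
  rw [List.take_of_length_le]
  · refine List.mem_filter.2 ⟨h, ?_⟩
    simp only [survive, List.all_eq_true, Bool.or_eq_true, decide_eq_true_eq, bne_iff_ne]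
    intro z _
    refine (lt_or_ge _ _).imp id fun hz => ?_
    have := (approx_sel hf hA hW hm hys (j := (ys.map L).count true)
      (List.count_le_length.trans (by simpa using hlen)) h1 z hz).2
    simpa only [hL] using this
  · rw [← List.toFinset_card_of_nodup (hnd.filter _), Finset.card_eq_sum_card_fiberwise
      (f := fun v : List Bool => v.count true) (t := Finset.range (m + 1))]
    · refine (Finset.sum_le_card_nsmul _ _ (K0 c W m) fun j hj => ?_).trans (by simp [Kp])
      refine card_census hf hA hW hm hys (j := j) (by simpa [Nat.lt_succ_iff] using hj) h1 _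
        (fun v hv w hw e => ?_) fun v hv => ?_
      · simp only [Finset.coe_filter, List.mem_toFinset, List.mem_filter, Set.mem_ofPred_eq]
          at hv hw
        exact List.inj_on_of_nodup_map h2 hv.1.1 hw.1.1 e
      · simp only [Finset.mem_filter, List.mem_toFinset, List.mem_filter] at hv
        exact ⟨hv.2, hv.1.2⟩
    · intro v hv
      simp only [List.coe_toFinset, List.mem_filter, Set.mem_ofPred_eq] at hv
      have := List.count_le_length (a := true) (l := v)
      rw [mem_exts hv.1] at this
      simp only [Finset.coe_range, Set.mem_Iio]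
      omega

theorem enumA_complete {L : List Bool → Bool}
    (hL : ∀ ys q y t, A (ρ (ys, (ys.map L).count true, q, y, t)) = hbit q y (ys.map L) t)
    {xs : List (List Bool)} (hxs : sz xs ≤ m) : xs.map L ∈ enumA c W g ρ xs m := by
  have key : ∀ i ≤ xs.length,
      let C := (List.range i).foldl (fun C i => prune c W g ρ m (xs.take (i + 1)) C) [[]]
      C.length ≤ Kp c W m ∧ (xs.take i).map L ∈ C := by
    intro i hi
    induction i with
    | zero => exact ⟨Kp_pos _, by simp⟩
    | succ i ih =>
      obtain ⟨h1, h2⟩ := ih (by omega)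
      rw [List.range_succ, List.foldl_append]
      refine ⟨by simp [prune], prune_complete hf hA hW hm hL
        ((sz_sublist (List.take_sublist _ _)).trans hxs) h1 ?_⟩
      simp only [exts, List.mem_dedup, List.mem_filter, List.mem_flatMap, decide_eq_true_eq]
      refine ⟨⟨_, h2, ?_⟩, by simp⟩
      rw [List.take_succ_eq_append_getElem hi, List.map_append]
      cases h : L xs[i] <;> simp [h]
  simpa [enumA] using (key _ le_rfl).2

end correct

end alg

/-- an approximable NP-hard set makes all NP languages enumerable -/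
theorem enum_of_approx {A : List Bool → Bool}
    (hard : ∀ L ∈ NP, N793a5b8e.ManyOneReducible L A) (h : LogApproximable A) :
    ∀ L ∈ NP, Enum L := by
  classical
  obtain ⟨f, g, hf, hg, hA⟩ := h
  obtain ⟨c, hc⟩ := log_bound hf
  rintro L ⟨p, R, hR, hL⟩
  obtain ⟨B, hB, h1⟩ := exists_NP (R3 p R) (R3_pt p (PT.ofIsPolyTime hR))
    (fun a => a.1.length * (2 * (3 + 3 * p.eval (sz a.1)) + 1))
    (PB.mul (by fun_prop) (PB.add (PB.mul (by fun_prop) (PB.add (by fun_prop)
      (PB.mul (by fun_prop) (pb_eval p (by fun_prop))))) (by fun_prop))) (R3_bound p R)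
  obtain ⟨r, hr, h2⟩ := hard B hB
  have hρ : PT fun a : Qry => r (bitEncode a) := (PT.ofIsPolyTime hr).comp' (by fun_prop)
  obtain ⟨W, hW⟩ := PB.length hρ
  obtain ⟨C, hC⟩ := PB_le_two_pow (g := fun u : List Bool => qq c W u.length + 1)
    (by fun_prop) 3
  refine ⟨fun xs => enumA c W g (fun a => r (bitEncode a)) xs (sz xs + C),
    enumA_pt (PT.ofIsPolyTime hg) hρ (by fun_prop) (by fun_prop) (by fun_prop), fun xs =>
    enumA_complete hc hA hW ?_ (fun ys q y t => ?_) (by omega)⟩
  · have := hC (sz xs + C) (by omega) (List.replicate (sz xs + C) true)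
      (by rw [sz_listBool]; simp)
    rw [List.length_replicate] at this
    rw [sz_nat, Nat.size_le]
    omega
  · rw [← h2, h1, Dec.dec_enc]
    simp only [R3_iff hL]
    simp

end Pool.Agent.Lib.MP_8f56c4_lc.H3
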