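import Pool.Agent.Lib.MP_8f56c4_lc.H3.Tools

set_option autoImplicit false

namespace Pool.Agent.Lib.MP_8f56c4_lc.H3

open Pool.Agent.Shared.PolyTime N487b59b3

/-- a position at which many of the remaining vectors are true -/
def pick (q s : ℕ) (rem : List (List Bool)) : ℕ :=
  ((List.range (q * q)).find? fun τ =>
    decide (s * rem.length ≤ 2 * q * rem.countP fun v => v.getD τ false)).getD 0

/-- one greedy step -/
def gstep (q s : ℕ) (st : List (List Bool) × List ℕ) : List (List Bool) × List ℕ :=
  (st.1.filter fun v => !v.getD (pick q s st.1) false, pick q s st.1 :: st.2)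

/-- vectors with many true positions -/
def dense (q s : ℕ) (v : List Bool) : Bool :=
  decide (s * q ≤ 2 * (List.range (q * q)).countP fun τ => v.getD τ false)

/-- greedy hitting set for the dense members of `C` -/
def hit (q s L : ℕ) (C : List (List Bool)) : List ℕ :=
  ((gstep q s)^[L] (C.filter (dense q s), [])).2

theorem pick_le (q s : ℕ) (rem : List (List Bool)) : pick q s rem ≤ q * q := by
  unfold pick
  rcases h : (List.range (q * q)).find? _ with _ | t
  · simp
  · have := List.mem_of_find?_eq_some h
    simp only [List.mem_range] at this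
    simp only [Option.getD_some]
    omega

section pt

variable {α : Type} [N487b59b3 α] {q s L : α → ℕ}

@[fun_prop] theorem pick_pt {r : α → List (List Bool)} (hq : PT q) (bq : PB q) (hs : PT s)
    (hr : PT r) : PT (fun a => pick (q a) (s a) (r a)) := by
  have h1 : PT (fun a => List.range (q a * q a)) := by fun_prop
  unfold pick
  refine PT.getD (PT.find? h1 ?_) (by fun_prop)
  fun_prop

@[fun_prop] theorem dense_pt {v : α → List Bool} (hq : PT q) (bq : PB q) (hs : PT s)
    (hv : PT v) : PT (fun a => dense (q a) (s a) (v a)) := by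
  have h1 : PT (fun a => List.range (q a * q a)) := by fun_prop
  unfold dense
  fun_prop

@[fun_prop] theorem hit_pt {C : α → List (List Bool)} (hq : PT q) (bq : PB q) (hs : PT s)
    (hL : PT L) (bL : PB L) (hC : PT C) : PT (fun a => hit (q a) (s a) (L a) (C a)) := by
  have h1 : PT (fun p : α × List (List Bool) × List ℕ => pick (q p.1) (s p.1) p.2.1) :=
    pick_pt (by fun_prop) (bq.comp (f := Prod.fst) (by fun_prop)) (by fun_prop) (by fun_prop)
  have h2 : PT (fun a => (C a).filter (dense (q a) (s a))) :=
    PT.filter hC (dense_pt (by fun_prop) (bq.comp (f := Prod.fst) (by fun_prop)) (by fun_prop)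
      (by fun_prop))
  have h0 : PT (fun p : α × List (List Bool) × List ℕ => gstep (q p.1) (s p.1) p.2) := by
    unfold gstep
    refine PT.pair (PT.filter (by fun_prop) (PT.not (PT.lgetD
      (h1.comp' (f := Prod.fst) (by fun_prop)) (by fun_prop) (by fun_prop)))) (by fun_prop)
  have := PT.iterate_grow (f := fun a => gstep (q a) (s a)) (n := L)
    (s0 := fun a => ((C a).filter (dense (q a) (s a)), [])) h0 hL bL
    (by fun_prop) (g := fun a => 2 * (q a * q a) + 1) (by fun_prop) (fun a st => by
      have h3 := sz_sublist (List.filter_sublist (l := st.1)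
        (p := fun v => !v.getD (pick (q a) (s a) st.1) false))
      have h4 := (sz_nat_le _).trans (pick_le (q a) (s a) st.1)
      rw [sz_prod st]
      simp only [gstep, sz_pair, sz_cons]
      omega)
  exact this.snd

end pt

theorem gstep_snd (q s L : ℕ) (st : List (List Bool) × List ℕ) :
    ((gstep q s)^[L] st).2.length = st.2.length + L ∧
      ∀ τ ∈ ((gstep q s)^[L] st).2, τ ∈ st.2 ∨ τ ≤ q * q := by
  induction L with
  | zero => simp; tauto
  | succ L ih =>
    rw [Function.iterate_succ_apply']
    refine ⟨by simp only [gstep, List.length_cons, ih.1]; omega, fun τ h => ?_⟩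
    rcases List.mem_cons.1 h with h | h
    · exact Or.inr (h ▸ pick_le _ _ _)
    · exact ih.2 τ h

theorem length_hit (q s L : ℕ) (C : List (List Bool)) : (hit q s L C).length = L := by
  simpa [hit] using (gstep_snd q s L (C.filter (dense q s), [])).1

theorem sz_hit (q s L : ℕ) (C : List (List Bool)) : sz (hit q s L C) ≤ L * (2 * (q * q) + 1) := by
  have := sz_list_le (l := hit q s L C) (B := q * q) fun τ h => (sz_nat_le _).trans (by
    simpa using (gstep_snd q s L (C.filter (dense q s), [])).2 τ h)
  rwa [length_hit] at this

theorem sum_countP (N : ℕ) (rem : List (List Bool)) :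
    ∑ τ ∈ Finset.range N, rem.countP (fun v => v.getD τ false)
      = (rem.map fun v => (List.range N).countP fun τ => v.getD τ false).sum := by
  induction rem with
  | nil => simp
  | cons v rem ih =>
    simp only [List.countP_cons, Finset.sum_add_distrib, ih, List.map_cons, List.sum_cons]
    rw [add_comm]
    congr 1
    clear ih
    induction N with
    | zero => simp
    | succ N ih2 =>
      rw [Finset.sum_range_succ, List.range_succ, List.countP_append, ← ih2]
      simp [List.countP_cons]

theorem pick_spec {q s : ℕ} (hq : 0 < q) {rem : List (List Bool)}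
    (h : ∀ v ∈ rem, dense q s v = true) :
    pick q s rem < q * q ∧
      s * rem.length ≤ 2 * q * rem.countP fun v => v.getD (pick q s rem) false := by
  unfold pick
  rcases h1 : (List.range (q * q)).find? _ with _ | t
  · exfalso
    rw [List.find?_eq_none] at h1
    simp only [List.mem_range, decide_eq_true_eq, not_le] at h1
    have h2 : ∑ τ ∈ Finset.range (q * q), 2 * q * rem.countP (fun v => v.getD τ false)
        < ∑ _τ ∈ Finset.range (q * q), s * rem.length :=
      Finset.sum_lt_sum_of_nonempty ⟨0, by simpa using hq.ne'⟩ fun τ hτ =>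
        h1 τ (Finset.mem_range.1 hτ)
    rw [← Finset.mul_sum, sum_countP, Finset.sum_const, Finset.card_range, smul_eq_mul] at h2
    have h3 : rem.length * (s * q) ≤
        2 * (rem.map fun v => (List.range (q * q)).countP fun τ => v.getD τ false).sum := by
      clear h1 h2
      induction rem with
      | nil => simp
      | cons v rem ih =>
        have h4 := ih fun w hw => h w (by simp [hw])
        have h5 := h v (by simp)
        simp only [dense, decide_eq_true_eq] at h5
        simp only [List.length_cons, List.map_cons, List.sum_cons]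
        nlinarith
    nlinarith
  · have h2 := List.find?_some h1
    have h3 := List.mem_of_find?_eq_some h1
    simp only [List.mem_range, decide_eq_true_eq] at h2 h3
    exact ⟨h3, h2⟩

theorem hit_spec {q s r m : ℕ} (hq : 0 < q) (hs : s ≤ 2 * q) (hr : 2 * q ≤ s * r)
    {C : List (List Bool)} (hC : C.length ≤ 2 ^ m) {v : List Bool} (hv : v ∈ C)
    (hd : dense q s v = true) :
    ∃ τ ∈ hit q s ((m + 1) * r) C, τ < q * q ∧ v.getD τ false = true := by
  have hq' : (0 : ℝ) < 2 * q := by positivity
  set x : ℝ := s / (2 * q) with hx
  have hx0 : 0 ≤ x := by positivity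
  have hx1 : x ≤ 1 := by
    rw [hx, div_le_one hq']; exact_mod_cast hs
  have key : ∀ i, let st := (gstep q s)^[i] (C.filter (dense q s), [])
      (∀ w ∈ st.1, dense q s w = true) ∧ (st.1.length : ℝ) ≤ 2 ^ m * (1 - x) ^ i ∧
        (v ∈ st.1 ∨ ∃ τ ∈ st.2, τ < q * q ∧ v.getD τ false = true) := by
    intro i
    induction i with
    | zero =>
      refine ⟨fun w hw => (List.mem_filter.1 hw).2, ?_, Or.inl (List.mem_filter.2 ⟨hv, hd⟩)⟩
      have := (List.length_filter_le (dense q s) C).trans hC
      simp only [Function.iterate_zero, id, pow_zero, mul_one]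
      exact_mod_cast this
    | succ i ih =>
      rw [Function.iterate_succ_apply']
      generalize (gstep q s)^[i] (C.filter (dense q s), []) = st at ih
      obtain ⟨h1, h2, h3⟩ := ih
      obtain ⟨h4, h5⟩ := pick_spec hq h1
      refine ⟨fun w hw => h1 w (List.mem_filter.1 hw).1, ?_, ?_⟩
      · have h6 : (st.1.filter fun v => !v.getD (pick q s st.1) false).length
            + st.1.countP (fun v => v.getD (pick q s st.1) false) = st.1.length := by
          rw [← List.countP_eq_length_filter, add_comm]
          simpa using (List.length_eq_countP_add_countP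
            (fun v => v.getD (pick q s st.1) false) (l := st.1)).symm
        have h7 : ((st.1.filter fun v => !v.getD (pick q s st.1) false).length : ℝ)
            ≤ st.1.length * (1 - x) := by
          have h8 : (s : ℝ) * st.1.length ≤
              2 * q * (st.1.countP (fun v => v.getD (pick q s st.1) false) : ℕ) := by
            exact_mod_cast h5
          have h9 : ((st.1.filter fun v => !v.getD (pick q s st.1) false).length : ℝ)
            + (st.1.countP (fun v => v.getD (pick q s st.1) false) : ℕ) = st.1.length := by
            exact_mod_cast h6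
          have h10 : st.1.length * x ≤
              (st.1.countP (fun v => v.getD (pick q s st.1) false) : ℕ) := by
            rw [hx, ← mul_div_assoc, div_le_iff₀ hq']
            linarith
          linarith
        refine h7.trans ?_
        rw [pow_succ, ← mul_assoc]
        exact mul_le_mul_of_nonneg_right h2 (by linarith)
      · rcases h3 with h3 | ⟨τ, h6, h7⟩
        · by_cases h8 : v.getD (pick q s st.1) false = true
          · exact Or.inr ⟨_, List.mem_cons_self, h4, h8⟩
          · exact Or.inl (List.mem_filter.2 ⟨h3, by simpa using h8⟩)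
        · exact Or.inr ⟨τ, List.mem_cons_of_mem _ h6, h7⟩
  obtain ⟨-, h2, h3⟩ := key ((m + 1) * r)
  refine h3.resolve_left fun h4 => ?_
  have h5 : (1 : ℝ) ≤ ((gstep q s)^[(m + 1) * r] (C.filter (dense q s), [])).1.length := by
    exact_mod_cast List.length_pos_of_mem h4
  have h6 : (1 - x) ^ r ≤ 1 / 2 := by
    have h7 : 1 + r * x ≤ (1 + x) ^ r := one_add_mul_le_pow (by linarith) r
    have h8 : 1 ≤ r * x := by
      rw [hx, ← mul_div_assoc, le_div_iff₀ hq']
      have : ((2 * q : ℕ) : ℝ) ≤ (s * r : ℕ) := by exact_mod_cast hr
      push_cast at this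
      linarith
    have h9 : (1 - x) ^ r * (1 + x) ^ r ≤ 1 := by
      rw [← mul_pow]
      exact pow_le_one₀ (by nlinarith) (by nlinarith)
    have h10 : 0 ≤ (1 - x) ^ r := pow_nonneg (by linarith) r
    nlinarith
  have h7 : (1 - x) ^ ((m + 1) * r) ≤ (1 / 2) ^ (m + 1) := by
    rw [mul_comm, pow_mul]
    exact pow_le_pow_left₀ (pow_nonneg (by linarith) r) h6 _
  have h8 : (2 : ℝ) ^ m * (1 / 2) ^ (m + 1) = 1 / 2 := by
    rw [pow_succ, ← mul_assoc, ← mul_pow]; norm_num
  have h9 : (2 : ℝ) ^ m * (1 - x) ^ ((m + 1) * r) ≤ 2 ^ m * (1 / 2) ^ (m + 1) :=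
    mul_le_mul_of_nonneg_left h7 (by positivity)
  linarith

end Pool.Agent.Lib.MP_8f56c4_lc.H3
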