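import Pool.Agent.Lib.MP_8f56c4_lc.H3.Approx

set_option autoImplicit false

namespace Pool.Agent.Lib.MP_8f56c4_lc.H3

open Pool.Agent.Shared.PolyTime Pool.Agent.Shared.CookLevin N487b59b3 N68a2faeb

theorem length_answers (A : List Bool → Bool) (Q : List Bool × List Bool → List Bool)
    (x : List Bool) (k : ℕ) : (answers A Q x k).length = k := by
  induction k with
  | zero => rfl
  | succ k ih => simp [answers, ih]

theorem enum_of_subset (H : FPtt ⊆ FPlog) : ∀ L ∈ NP, Enum L := by
  intro L hL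
  obtain ⟨A, -, c, Q, E, -, hE, h⟩ := H (a := fun y => (Dec.dec y : List (List Bool)).map L)
    ⟨L, hL, Dec.dec, Prod.snd, PT.isPolyTime Dec.pt, PT.isPolyTime (by fun_prop), fun _ => rfl⟩
  have hE' := PT.ofIsPolyTime hE
  have h1 : PT fun xs : List (List Bool) => List.range (2 * (2 * (sz xs + 1)) ^ c) :=
    PT.range (PT.mul (by fun_prop) (PT.pow (by fun_prop) (by fun_prop) (by fun_prop)))
      (by fun_prop)
  refine ⟨fun xs => (List.range (2 * (2 * (sz xs + 1)) ^ c)).map fun z => E (bitEncode xs, wit z),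
    PT.map (h := fun xs z => E (bitEncode xs, wit z)) h1 (hE'.comp' (by fun_prop)), fun xs => ?_⟩
  have h2 := h (bitEncode xs)
  simp only [Dec.dec_enc] at h2
  obtain ⟨z, hz, hw⟩ := exists_wit (answers A Q (bitEncode xs)
    (c * Nat.log 2 (bitEncode xs).length + c))
  refine List.mem_map.2 ⟨z, List.mem_range.2 (hz.trans_le ?_), by rw [hw, h2]⟩
  rw [length_answers, pow_succ', ← mul_add_one, mul_comm c, pow_mul, pow_succ']
  refine Nat.mul_le_mul_left _ (Nat.pow_le_pow_left (Nat.mul_le_mul_left _ ?_) c)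
  exact Nat.pow_log_le_add_one 2 _

theorem SAT_encode (φ : CNF ℕ) : SAT (bitEncode φ) = true ↔ Sat φ := by
  simp only [SAT, decide_eq_true_eq]
  exact ⟨fun ⟨ψ, h1, h2⟩ => bitEncode_injective h1 ▸ h2, fun h => ⟨φ, rfl, h⟩⟩

theorem SAT_hard : ∀ L ∈ NP, N793a5b8e.ManyOneReducible L SAT := by
  intro L hL
  obtain ⟨f, hf, h⟩ := cook_levin hL
  exact ⟨fun x => bitEncode (f x), PT.isPolyTime (by fun_prop), fun x =>
    Bool.eq_iff_iff.2 ((h x).trans (SAT_encode _).symm)⟩

theorem SAT_mem_NP : SAT ∈ NP := by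
  classical
  let R : List Bool → List ℕ → Bool := fun x l =>
    decide (bitEncode (Dec.dec x : CNF ℕ) = x) && decide (sz l ≤ sz (vars (Dec.dec x : CNF ℕ))) &&
      (Dec.dec x : CNF ℕ).all fun C => C.any fun e => decide (e.2 ∈ l) == e.1
  have hv : PT fun x : List Bool => vars (Dec.dec x : CNF ℕ) := by unfold vars; fun_prop
  have hd : PT fun p : List Bool × List ℕ => (Dec.dec p.1 : CNF ℕ) := by fun_prop
  have hR : PT fun p : List Bool × List ℕ => R p.1 p.2 :=
    PT.and (PT.and (PT.decide_eq hd.bitEncode (by fun_prop))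
      (PT.decide_le (by fun_prop) (PT.sz (hv.comp' (by fun_prop)))))
      (PT.all hd (PT.any (by fun_prop) (PT.beq (PT.decide_mem (by fun_prop) (by fun_prop))
        (by fun_prop))))
  obtain ⟨A, ⟨p, S, hS, hA⟩, h⟩ := exists_NP R hR
    (fun x => sz (vars (Dec.dec x : CNF ℕ))) (PB.sz hv) (fun x l h => by
      simp only [R, Bool.and_eq_true, decide_eq_true_eq] at h
      exact h.1.2)
  have key : ∀ x, SAT x = true ↔ A (bitEncode x) = true := by
    intro x
    rw [h, Dec.dec_enc]
    simp only [SAT, R, decide_eq_true_eq, Bool.and_eq_true, List.all_eq_true, List.any_eq_true,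
      beq_iff_eq]
    constructor
    · rintro ⟨φ, rfl, τ, hτ⟩
      rw [Dec.dec_enc]
      refine ⟨(vars φ).filter τ, ⟨rfl, sz_sublist List.filter_sublist⟩, fun C hC => ?_⟩
      obtain ⟨e, he, h1⟩ := hτ C hC
      have h2 : e.2 ∈ vars φ := List.mem_flatMap.2 ⟨C, hC, List.mem_map.2 ⟨e, he, rfl⟩⟩
      exact ⟨e, he, by simp [List.mem_filter, h2, h1]⟩
    · rintro ⟨l, ⟨h1, -⟩, h2⟩
      exact ⟨_, h1, fun v => decide (v ∈ l), h2⟩
  refine ⟨p.comp (3 * Polynomial.X), fun e => S (bitEncode e.1, e.2),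
    PT.isPolyTime ((PT.ofIsPolyTime hS).comp' (by fun_prop)), fun x => ?_⟩
  have h2 : (bitEncode x).length = 3 * x.length := sz_listBool x
  rw [key, hA, h2]
  simp [Polynomial.eval_comp]

theorem log_pt {α : Type} [N487b59b3 α] {n : α → ℕ} (hn : PT n) :
    PT (fun a => Nat.log 2 (n a)) := by
  refine (PT.sub (PT.sz hn) (PT.const 1)).of_eq fun a => ?_
  rw [sz_nat]
  rcases Nat.eq_zero_or_pos (n a) with h | h
  · simp [h]
  · refine (Nat.log_eq_of_pow_le_of_lt_pow (Nat.lt_size.1 ?_) (Nat.size_le.1 (by omega))).symm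
    have := Nat.size_pos.2 h
    omega

theorem FPtt_eq_FPlog (H : P = NP) : FPtt = FPlog := by
  have h0 : (fun _ : List Bool => false) ∈ NP := P_subset_NP (PT.isPolyTime (by fun_prop))
  ext f
  constructor
  · rintro ⟨A, hA, Q, E, hQ, hE, h⟩
    have hA' : PT A := PT.ofIsPolyTime (H ▸ hA : A ∈ P)
    have hQ' := PT.ofIsPolyTime hQ
    refine ⟨_, h0, 0, Prod.fst, fun e => E (e.1, (Q e.1).map A), PT.isPolyTime (by fun_prop),
      PT.isPolyTime ((PT.ofIsPolyTime hE).comp' (PT.pair (by fun_prop)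
        (PT.map (h := fun _ y => A y) (hQ'.comp' (by fun_prop))
          (hA'.comp' (by fun_prop))))), h⟩
  · rintro ⟨A, hA, c, Q, E, hQ, hE, h⟩
    have hA' : PT A := PT.ofIsPolyTime (H ▸ hA : A ∈ P)
    have hQ' := PT.ofIsPolyTime hQ
    have h1 : PT fun x : List Bool => Nat.log 2 x.length := log_pt (by fun_prop)
    have h2 : PB fun x : List Bool => Nat.log 2 x.length :=
      PB.mono (g := fun x => x.length) (by fun_prop) fun x => Nat.log_le_self _ _
    have h3 := PT.iterate_grow (f := fun (x : List Bool) (a : List Bool) => a ++ [A (Q (x, a))])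
      (n := fun x => c * Nat.log 2 x.length + c) (s0 := fun _ => [])
      (PT.append (PT.snd PT.id') (PT.cons (hA'.comp' hQ') (PT.const _)))
      (((PT.const c).mul h1).add (PT.const c)) (((PB.const c).mul h2).add (PB.const c))
      (PT.const _) (g := fun _ => 3) (PB.const 3) (fun x a => by simp)
    have h4 : PT fun x : List Bool => answers A Q x (c * Nat.log 2 x.length + c) := by
      refine h3.of_eq fun x => ?_
      induction c * Nat.log 2 x.length + c with
      | zero => rfl
      | succ k ih => rw [Function.iterate_succ_apply', ih, answers]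
    exact ⟨_, h0, fun _ => [], fun e => E (e.1, answers A Q e.1 (c * Nat.log 2 e.1.length + c)),
      PT.isPolyTime (by fun_prop), PT.isPolyTime ((PT.ofIsPolyTime hE).comp'
        (PT.pair (by fun_prop) (h4.comp' (by fun_prop)))), h⟩

theorem logApproximable_of_mem_P {A : List Bool → Bool} (hA : A ∈ P) : LogApproximable A := by
  have hA' : PT A := PT.ofIsPolyTime hA
  refine ⟨fun _ => 0, fun xs => xs.map fun x => !A x, Asymptotics.isBigO_zero _ _,
    PT.isPolyTime (PT.map (h := fun _ x => !A x) (by fun_prop) (by fun_prop)), fun xs h _ =>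
    ⟨by simp, ?_⟩⟩
  cases xs with
  | nil => exact absurd rfl h
  | cons x xs => simp

theorem tfae : List.TFAE [P = NP, FPtt = FPlog, FPtt ⊆ FPlog, LogApproximable SAT,
    ∃ A, (∀ L ∈ NP, N793a5b8e.ManyOneReducible L A) ∧ LogApproximable A] := by
  tfae_have 1 → 2 := FPtt_eq_FPlog
  tfae_have 2 → 3 := fun h => h.subset
  tfae_have 3 → 1 := fun h => P_eq_NP_of_enum (enum_of_subset h)
  tfae_have 1 → 4 := fun h => logApproximable_of_mem_P (h ▸ SAT_mem_NP)
  tfae_have 4 → 5 := fun h => ⟨SAT, SAT_hard, h⟩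
  tfae_have 5 → 1 := fun ⟨_, h1, h2⟩ => P_eq_NP_of_enum (enum_of_approx h1 h2)
  tfae_finish

end Pool.Agent.Lib.MP_8f56c4_lc.H3
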