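import Pool.Agent.Lib.MP_8f56c4_lc.H3.Greedy

set_option autoImplicit false
set_option linter.unusedSectionVars false

namespace Pool.Agent.Lib.MP_8f56c4_lc.H3

open Pool.Agent.Shared.PolyTime Pool.Agent.Shared.CookLevin N487b59b3 N68a2faeb

/-- threshold between few and many witnesses -/
def sp (m : ℕ) : ℕ := 16 * (m + 1)

/-- the prime -/
def qp (m : ℕ) : ℕ := prm (2 * (m + 1) * sp m ^ 2)

/-- the size of the hitting sets -/
def Lp (m : ℕ) : ℕ := (m + 1) * (qp m / (8 * (m + 1)) + 1)

/-- the size of the search space in round `i` -/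
def Zp (m i : ℕ) : ℕ := 2 ^ (m - i) + qp m

/-- the number with higher digits `j` and hash value `τ % q` at the point `τ / q` -/
def dec1 (q n τ j : ℕ) : ℕ := q * j + (τ % q + (q - 1) * (τ / q * ev q n (τ / q) j)) % q

/-- translation of a point of the current search space into the original one -/
def G (m : ℕ) (T : List (List ℕ)) (z : ℕ) : ℕ :=
  T.foldl (fun z H => dec1 (qp m) m (H.getD (z % Lp m) 0) (z / Lp m)) z

theorem qp_prime (m : ℕ) : (qp m).Prime := (prm_spec _).1

theorem qp_gt (m : ℕ) : 2 * (m + 1) * sp m ^ 2 < qp m := (prm_spec _).2.1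

theorem qp_big (m : ℕ) : 16 * (m + 1) ≤ qp m := by
  have h := qp_gt m
  have : sp m ≤ 2 * (m + 1) * sp m ^ 2 := by
    have : 1 ≤ sp m := by unfold sp; omega
    nlinarith
  unfold sp at *
  omega

theorem Lp_le (m : ℕ) : 4 * Lp m ≤ qp m := by
  have h := qp_big m
  have h1 := Nat.mul_div_le (qp m) (8 * (m + 1))
  unfold Lp
  nlinarith

theorem Lp_pos (m : ℕ) : 0 < Lp m := by unfold Lp; positivity

section pt

variable {α : Type} [N487b59b3 α] {m : α → ℕ}

@[fun_prop] theorem sp_pt (hm : PT m) : PT (fun a => sp (m a)) := by unfold sp; fun_prop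
@[fun_prop] theorem sp_pb (bm : PB m) : PB (fun a => sp (m a)) := by unfold sp; fun_prop
@[fun_prop] theorem qp_pt (hm : PT m) (bm : PB m) : PT (fun a => qp (m a)) := by
  unfold qp
  exact prm_pt (PT.mul (by fun_prop) (PT.pow (by fun_prop) (by fun_prop) (by fun_prop)))
    (by fun_prop)
@[fun_prop] theorem qp_pb (bm : PB m) : PB (fun a => qp (m a)) := by unfold qp; fun_prop
@[fun_prop] theorem Lp_pt (hm : PT m) (bm : PB m) : PT (fun a => Lp (m a)) := by
  unfold Lp; fun_prop
@[fun_prop] theorem Lp_pb (bm : PB m) : PB (fun a => Lp (m a)) :=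
  (qp_pb bm).mono fun a => by have := Lp_le (m a); omega
@[fun_prop] theorem Zp_pt {i : α → ℕ} (hm : PT m) (bm : PB m) (hi : PT i) :
    PT (fun a => Zp (m a) (i a)) := by
  unfold Zp
  exact PT.add (PT.pow (by fun_prop) (by fun_prop) (bm.sub _)) (by fun_prop)
@[fun_prop] theorem dec1_pt {q τ j : α → ℕ} (hq : PT q) (hm : PT m) (bm : PB m) (hτ : PT τ)
    (hj : PT j) : PT (fun a => dec1 (q a) (m a) (τ a) (j a)) := by
  unfold dec1; fun_prop

@[fun_prop] theorem G_pt {T : α → List (List ℕ)} {z : α → ℕ} (hm : PT m) (bm : PB m) (hT : PT T)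
    (hz : PT z) : PT (fun a => G (m a) (T a) (z a)) := by
  have bm' : PB (fun p : α × ℕ × List ℕ => m p.1) := bm.comp (f := Prod.fst) (by fun_prop)
  have hm' : PT (fun p : α × ℕ × List ℕ => m p.1) := by fun_prop
  have hL := Lp_pt hm' bm'
  unfold G
  refine PT.foldl_grow (f := fun a z (H : List ℕ) =>
    dec1 (qp (m a)) (m a) (H.getD (z % Lp (m a)) 0) (z / Lp (m a)))
    (dec1_pt (qp_pt hm' bm') hm' bm' (by fun_prop) (by fun_prop)) hT hz
    (g := fun a => qp (m a) + 1) (by fun_prop) fun a z H _ => ?_
  have h0 := (qp_prime (m a)).pos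
  have h1 : dec1 (qp (m a)) (m a) (H.getD (z % Lp (m a)) 0) (z / Lp (m a))
      ≤ qp (m a) * (z + 1) := by
    unfold dec1
    have h2 := Nat.mod_lt (H.getD (z % Lp (m a)) 0 % qp (m a) + (qp (m a) - 1) *
      (H.getD (z % Lp (m a)) 0 / qp (m a) * ev (qp (m a)) (m a)
        (H.getD (z % Lp (m a)) 0 / qp (m a)) (z / Lp (m a)))) h0
    have h3 := Nat.mul_le_mul_left (qp (m a)) (Nat.div_le_self z (Lp (m a)))
    rw [mul_add]
    omega
  have h4 := sz_nat_mono h1
  have h5 := sz_mul_le (qp (m a)) (z + 1)
  have h6 := sz_nat_le (qp (m a))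
  have h7 : sz (z + 1) ≤ sz z + 1 := by
    rw [sz_nat, sz_nat, Nat.size_le, pow_succ]
    have := Nat.lt_size_self z
    omega
  omega

end pt

theorem dec1_eq {q : ℕ} (hq : 0 < q) (n y x : ℕ) :
    dec1 q n (y * q + ev q (n + 1) y x % q) (x / q) = x := by
  have h1 : (y * q + ev q (n + 1) y x % q) / q = y := by
    rw [add_comm, Nat.add_mul_div_right _ _ hq, Nat.div_eq_of_lt (Nat.mod_lt _ hq), zero_add]
  have h2 : (y * q + ev q (n + 1) y x % q) % q = ev q (n + 1) y x % q := by
    rw [add_comm, Nat.add_mul_mod_self_right, Nat.mod_mod]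
  unfold dec1
  rw [h1, h2, ev_succ, Nat.mod_add_mod]
  obtain ⟨k, rfl⟩ : ∃ k, q = k + 1 := ⟨q - 1, by omega⟩
  have h3 : x % (k + 1) + y * ev (k + 1) n y (x / (k + 1)) +
      (k + 1 - 1) * (y * ev (k + 1) n y (x / (k + 1)))
      = x % (k + 1) + (k + 1) * (y * ev (k + 1) n y (x / (k + 1))) := by
    simp only [Nat.add_sub_cancel]; ring
  rw [h3, Nat.add_mul_mod_self_left, Nat.mod_mod, Nat.div_add_mod]

theorem val_map_getD {z N : ℕ} (h : z.size ≤ N) :
    val ((List.range N).map fun t => z.bits.getD t false) = z := by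
  have h1 : (List.range N).map (fun t => z.bits.getD t false)
      = z.bits ++ (List.range (N - z.size)).map fun _ => false := by
    have h2 := Nat.size_eq_bits_len z
    refine List.ext_getElem (by simp; omega) fun i h3 h4 => ?_
    simp only [List.getElem_map, List.getElem_range, List.getElem_append]
    split_ifs with h5
    · exact List.getD_eq_getElem _ _ h5
    · exact List.getD_eq_default _ _ (by omega)
  rw [h1, val_append, val_map_false, val_bits]
  simp

section search

variable {α : Type} [N487b59b3 α] (V : α → ℕ → Bool)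

/-- `l` is a list of `k` distinct witnesses, headed by the least one, whose bit `t` is set -/
def R1 (p : α × List Bool × List (List ℕ) × ℕ × ℕ) (l : List ℕ) : Bool :=
  decide (l.length = p.2.2.2.1) && decide (l.length ≤ sp p.2.1.length) && decide l.Nodup &&
    (l.all fun z => decide (z < Zp p.2.1.length p.2.2.1.length) &&
      V p.1 (G p.2.1.length p.2.2.1 z) && decide (l.headD 0 ≤ z)) &&
    (l.headD 0).bits.getD p.2.2.2.2 false

/-- `j` gives a witness in the fibre `τ` -/
def R2 (p : α × List Bool × List (List ℕ) × ℕ) (j : ℕ) : Bool :=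
  decide (j < Zp p.2.1.length p.2.2.1.length / qp p.2.1.length + 1) &&
    V p.1 (G p.2.1.length p.2.2.1 (dec1 (qp p.2.1.length) p.2.1.length p.2.2.2 j))

variable (e1 : List (α × List Bool × List (List ℕ) × ℕ × ℕ) → List (List Bool))
  (e2 : List (α × List Bool × List (List ℕ) × ℕ) → List (List Bool))

/-- search for a witness when there are few of them -/
def found (a : α) (u : List Bool) (T : List (List ℕ)) : Bool :=
  (List.range (sp u.length + 1)).any fun k =>
    (e1 ((List.range (sz (Zp u.length T.length))).map fun t => (a, u, T, k, t))).any fun v =>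
      V a (G u.length T (val v))

/-- the candidates for the pattern of the fibres that contain a witness -/
def cands (a : α) (u : List Bool) (T : List (List ℕ)) : List (List Bool) :=
  e2 ((List.range (qp u.length * qp u.length)).map fun τ => (a, u, T, τ))

/-- shrinking of the search space -/
def step (a : α) (u : List Bool) (T : List (List ℕ)) : List (List ℕ) :=
  hit (qp u.length) (sp u.length) (Lp u.length) (cands e2 a u T) :: T

/-- the tables after `i` rounds -/
def tabs (a : α) (u : List Bool) (i : ℕ) : List (List ℕ) := (step e2 a u)^[min i u.length] []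

/-- the decision procedure -/
def decideV (a : α) (u : List Bool) : Bool :=
  ((List.range u.length).any fun i => found V e1 a u (tabs e2 a u i)) ||
    (List.range (qp u.length + 1)).any fun z => V a (G u.length (tabs e2 a u u.length) z)

variable {V e1 e2}

theorem V_pt (hV : PT fun p : α × ℕ => V p.1 p.2) {β : Type} [N487b59b3 β] {a : β → α}
    {z : β → ℕ} (ha : PT a) (hz : PT z) : PT (fun x => V (a x) (z x)) :=
  hV.comp' (f := fun x => (a x, z x)) (by fun_prop)

theorem R1_pt (hV : PT fun p : α × ℕ => V p.1 p.2) :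
    PT fun p : (α × List Bool × List (List ℕ) × ℕ × ℕ) × List ℕ => R1 V p.1 p.2 := by
  unfold R1
  refine PT.and (PT.and (by fun_prop) (PT.all (by fun_prop) (PT.and (PT.and (by fun_prop)
    (V_pt hV (by fun_prop) (by fun_prop))) (by fun_prop)))) (by fun_prop)

theorem R2_pt (hV : PT fun p : α × ℕ => V p.1 p.2) :
    PT fun p : (α × List Bool × List (List ℕ) × ℕ) × ℕ => R2 V p.1 p.2 := by
  unfold R2
  exact PT.and (by fun_prop) (V_pt hV (by fun_prop) (by fun_prop))

section

variable {β : Type} [N487b59b3 β] {a : β → α} {u : β → List Bool}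

theorem found_pt (hV : PT fun p : α × ℕ => V p.1 p.2) (h1 : PT e1) {T : β → List (List ℕ)}
    (ha : PT a) (hu : PT u) (hT : PT T) : PT fun x => found V e1 (a x) (u x) (T x) := by
  unfold found
  refine PT.any (by fun_prop) (PT.any (h1.comp' (PT.map (h := fun (p : β × ℕ) t =>
    (a p.1, u p.1, T p.1, p.2, t)) (by fun_prop) (by fun_prop)))
    (V_pt hV (by fun_prop) (by fun_prop)))

theorem cands_pt (h2 : PT e2) {T : β → List (List ℕ)}
    (ha : PT a) (hu : PT u) (hT : PT T) : PT fun x => cands e2 (a x) (u x) (T x) := by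
  unfold cands
  exact h2.comp' (PT.map (h := fun x τ => (a x, u x, T x, τ)) (by fun_prop) (by fun_prop))

theorem tabs_pt (h2 : PT e2) {i : β → ℕ}
    (ha : PT a) (hu : PT u) (hi : PT i) : PT fun x => tabs e2 (a x) (u x) (i x) := by
  unfold tabs
  refine PT.iterate_grow (f := fun x => step e2 (a x) (u x)) ?_ (by fun_prop) (by fun_prop)
    (by fun_prop) (g := fun x => 2 * (Lp (u x).length *
      (2 * (qp (u x).length * qp (u x).length) + 1)) + 1) (by fun_prop) fun x T => ?_
  · unfold step
    exact PT.cons (hit_pt (by fun_prop) (by fun_prop) (by fun_prop) (by fun_prop) (by fun_prop)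
      (cands_pt h2 (by fun_prop) (by fun_prop) (by fun_prop))) (by fun_prop)
  · have := sz_hit (qp (u x).length) (sp (u x).length) (Lp (u x).length) (cands e2 (a x) (u x) T)
    simp only [step, sz_cons]
    omega

theorem decideV_pt (hV : PT fun p : α × ℕ => V p.1 p.2) (h1 : PT e1) (h2 : PT e2)
    (ha : PT a) (hu : PT u) : PT fun x => decideV V e1 e2 (a x) (u x) := by
  unfold decideV
  refine PT.or (PT.any (by fun_prop) (found_pt hV h1 (by fun_prop) (by fun_prop)
    (tabs_pt h2 (by fun_prop) (by fun_prop) (by fun_prop)))) (PT.any (by fun_prop)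
      (V_pt hV (by fun_prop) (G_pt (by fun_prop) (by fun_prop)
        (tabs_pt h2 (by fun_prop) (by fun_prop) (by fun_prop)) (by fun_prop))))

end

theorem decideV_sound {a : α} {u : List Bool} (h : decideV V e1 e2 a u = true) :
    ∃ z, V a z = true := by
  simp only [decideV, found, Bool.or_eq_true, List.any_eq_true] at h
  rcases h with ⟨_, -, _, -, _, -, h⟩ | ⟨_, -, h⟩ <;> exact ⟨_, h⟩

open Classical in
theorem found_complete
    (h1 : ∀ l, l.map (fun p => decide (∃ b, R1 V p b = true)) ∈ e1 l)
    {a : α} {u : List Bool} {T : List (List ℕ)} (S : Finset ℕ)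
    (hS : ∀ z, z ∈ S ↔ z < Zp u.length T.length ∧ V a (G u.length T z) = true)
    (hne : S.Nonempty) (hc : S.card ≤ sp u.length) : found V e1 a u T = true := by
  simp only [found, List.any_eq_true]
  refine ⟨S.card, by simp; omega, _, h1 _, ?_⟩
  have hmin := (hS _).1 (S.min'_mem hne)
  have key : ∀ t, (∃ b, R1 V (a, u, T, S.card, t) b = true) ↔
      (S.min' hne).bits.getD t false = true := by
    intro t
    have hhead : ∀ l : List ℕ, l.toFinset = S → (∀ z ∈ l, l.headD 0 ≤ z) →
        l.headD 0 = S.min' hne := by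
      intro l hl h
      have h2 : S.min' hne ∈ l := by
        rw [← List.mem_toFinset, hl]; exact S.min'_mem hne
      refine le_antisymm (h _ h2) (S.min'_le _ ?_)
      rw [← hl, List.mem_toFinset]
      cases l with
      | nil => simp at h2
      | cons x l => simp
    simp only [R1, Bool.and_eq_true, decide_eq_true_eq, List.all_eq_true]
    constructor
    · rintro ⟨l, ⟨⟨⟨h2, -⟩, h3⟩, h4⟩, h5⟩
      rw [← hhead l ?_ fun z hz => (h4 z hz).2]
      · exact h5
      · refine Finset.eq_of_subset_of_card_le (fun z hz => (hS z).2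
          (h4 z (List.mem_toFinset.1 hz)).1) ?_
        rw [List.toFinset_card_of_nodup h3, h2]
    · intro h
      have h2 : ∀ z ∈ S.sort (· ≤ ·), (S.sort (· ≤ ·)).headD 0 ≤ z := by
        have h3 := S.pairwise_sort (· ≤ ·)
        generalize S.sort (· ≤ ·) = l at h3
        cases l with
        | nil => simp
        | cons x l =>
          intro z hz
          rcases List.mem_cons.1 hz with rfl | hz
          · simp
          · simpa using List.rel_of_pairwise_cons h3 hz
      refine ⟨S.sort (· ≤ ·), ⟨⟨⟨by simp, by simpa using hc⟩, S.sort_nodup _⟩, fun z hz =>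
        ⟨(hS z).1 (by simpa using hz), h2 z hz⟩⟩, ?_⟩
      rw [hhead _ (by simp) h2]
      exact h
  rw [List.map_map]
  have : ((fun p => decide (∃ b, R1 V p b = true)) ∘ fun t => (a, u, T, S.card, t))
      = fun t => (S.min' hne).bits.getD t false := by
    funext t
    simp only [Function.comp, key]
    simp
  rw [this, val_map_getD (by rw [sz_nat]; exact Nat.size_le_size hmin.1.le)]
  exact hmin.2

open Classical in
theorem dense_of_many {a : α} {u : List Bool} {T : List (List ℕ)} (hm : 0 < u.length)
    (S : Finset ℕ) (hS : ∀ z ∈ S, z < Zp u.length T.length ∧ V a (G u.length T z) = true)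
    (hc : S.card = sp u.length) :
    dense (qp u.length) (sp u.length) (((List.range (qp u.length * qp u.length)).map
      fun τ => (a, u, T, τ)).map fun p => decide (∃ b, R2 V p b = true)) = true := by
  generalize hmu : u.length = m at *
  have hq := qp_prime m
  have hq0 := hq.pos
  have hgt := qp_gt m
  generalize hqq : qp m = q at *
  have hlt : ∀ x ∈ S, x < q ^ (m + 1) := by
    intro x hx
    have h1 := (hS x hx).1
    have h2 : 2 ^ (m - T.length) ≤ q ^ m :=
      (Nat.pow_le_pow_right two_pos (Nat.sub_le _ _)).trans (Nat.pow_le_pow_left hq.two_le m)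
    have h3 : q ≤ q ^ m := Nat.le_self_pow (by omega) q
    have h4 := Nat.mul_le_mul_left (q ^ m) hq.two_le
    rw [Zp, hqq] at h1
    rw [pow_succ]
    omega
  have hbad := card_bad hq S hlt
  have hsplit := Finset.card_filter_add_card_filter_not (s := Finset.range q)
    (fun y => Set.InjOn (fun x => ev q (m + 1) y x % q) S)
  rw [Finset.card_range] at hsplit
  generalize hgood : (Finset.range q).filter
    (fun y => Set.InjOn (fun x => ev q (m + 1) y x % q) S) = good at hsplit
  have hcount : (good ×ˢ S).card ≤ ((Finset.range (q * q)).filter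
      fun τ => ∃ b, R2 V (a, u, T, τ) b = true).card := by
    refine Finset.card_le_card_of_injOn (fun p => p.1 * q + ev q (m + 1) p.1 p.2 % q)
      (fun p hp => ?_) (fun p hp p' hp' e => ?_)
    · rw [Finset.mem_coe, Finset.mem_product, ← hgood, Finset.mem_filter, Finset.mem_range] at hp
      rw [Finset.mem_coe, Finset.mem_filter, Finset.mem_range]
      have h1 := Nat.mod_lt (ev q (m + 1) p.1 p.2) hq0
      refine ⟨by nlinarith [hp.1.1], p.2 / q, ?_⟩
      simp only [R2, hmu, hqq, Bool.and_eq_true, decide_eq_true_eq, dec1_eq hq0]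
      exact ⟨Nat.lt_succ_of_le (Nat.div_le_div_right (hS _ hp.2).1.le), (hS _ hp.2).2⟩
    · rw [Finset.mem_coe, Finset.mem_product, ← hgood, Finset.mem_filter] at hp hp'
      have h1 : p.1 = p'.1 := by
        have h2 := congrArg (· / q) e
        simp only [add_comm (_ * q), Nat.add_mul_div_right _ _ hq0,
          Nat.div_eq_of_lt (Nat.mod_lt _ hq0), zero_add] at h2
        exact h2
      refine Prod.ext h1 (hp.1.2 hp.2 hp'.2 ?_)
      simp only [← h1] at e
      simpa using e
  have hcp : (List.range (q * q)).countP (fun τ => (((List.range (q * q)).map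
      fun τ => (a, u, T, τ)).map fun p => decide (∃ b, R2 V p b = true)).getD τ false)
      = ((Finset.range (q * q)).filter fun τ => ∃ b, R2 V (a, u, T, τ) b = true).card := by
    rw [List.countP_congr (q := fun τ => decide (∃ b, R2 V (a, u, T, τ) b = true))]
    · rw [List.countP_eq_length_filter, ← List.toFinset_card_of_nodup
        (List.nodup_range.filter _)]
      congr 1
      ext τ
      simp
    · intro τ hτ
      rw [List.getD_eq_getElem _ _ (by simpa using hτ)]
      simp
  rw [dense, decide_eq_true_eq, hcp]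
  rw [Finset.card_product, hc] at hcount
  rw [hc] at hbad
  nlinarith

open Classical in
theorem step_complete
    (h1 : ∀ l, l.map (fun p => decide (∃ b, R1 V p b = true)) ∈ e1 l)
    (h2 : ∀ l, l.map (fun p => decide (∃ b, R2 V p b = true)) ∈ e2 l)
    {a : α} {u : List Bool} {T : List (List ℕ)} (hT : T.length < u.length)
    (hC : (cands e2 a u T).length ≤ 2 ^ u.length)
    (h : ∃ z < Zp u.length T.length, V a (G u.length T z) = true) :
    found V e1 a u T = true ∨
      ∃ z < Zp u.length (T.length + 1), V a (G u.length (step e2 a u T) z) = true := by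
  let S := (Finset.range (Zp u.length T.length)).filter fun z => V a (G u.length T z) = true
  have hS : ∀ z, z ∈ S ↔ z < Zp u.length T.length ∧ V a (G u.length T z) = true := by
    intro z; simp [S]
  by_cases hc : S.card ≤ sp u.length
  · obtain ⟨z, hz⟩ := h
    exact Or.inl (found_complete h1 S hS ⟨z, (hS z).2 hz⟩ hc)
  right
  obtain ⟨S', hS', hc'⟩ := Finset.exists_subset_card_eq (not_le.1 hc).le
  have hd := dense_of_many (V := V) (a := a) (T := T) (by omega) S'
    (fun z hz => (hS z).1 (hS' hz)) hc'
  have hbig := qp_big u.length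
  have hq0 := (qp_prime u.length).pos
  obtain ⟨τ, h3, h4, h5⟩ := hit_spec (r := qp u.length / (8 * (u.length + 1)) + 1) hq0
    (by unfold sp; omega) (by
      have := Nat.lt_mul_div_succ (qp u.length) (b := 8 * (u.length + 1)) (by omega)
      unfold sp
      nlinarith) hC (h2 _) hd
  rw [List.getD_eq_getElem _ _ (by simpa using h4)] at h5
  simp only [List.getElem_map, List.getElem_range, decide_eq_true_eq, R2, Bool.and_eq_true]
    at h5
  obtain ⟨j, h6, h7⟩ := h5
  obtain ⟨i, hi, rfl⟩ := List.getElem_of_mem h3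
  have hL := Lp_le u.length
  have hL0 := Lp_pos u.length
  have hi' : i < Lp u.length := by rwa [length_hit] at hi
  refine ⟨i + Lp u.length * j, ?_, ?_⟩
  · have h8 := Nat.mul_div_le (Zp u.length T.length) (qp u.length)
    have h9 : 2 ^ (u.length - T.length) = 2 * 2 ^ (u.length - (T.length + 1)) := by
      rw [← pow_succ']; congr 1; omega
    have h10 : Lp u.length * j ≤ Lp u.length * (Zp u.length T.length / qp u.length) :=
      Nat.mul_le_mul_left _ (by omega)
    have h11 := Nat.mul_le_mul_right (Zp u.length T.length / qp u.length) hL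
    rw [mul_assoc] at h11
    unfold Zp at *
    omega
  · simp only [step, G, List.foldl_cons]
    rw [Nat.add_mul_mod_self_left, Nat.mod_eq_of_lt hi', Nat.add_mul_div_left _ _ hL0,
      Nat.div_eq_of_lt hi', zero_add, List.getD_eq_getElem _ _ (by rw [length_hit]; exact hi')]
    exact h7

open Classical in
theorem decideV_complete
    (h1 : ∀ l, l.map (fun p => decide (∃ b, R1 V p b = true)) ∈ e1 l)
    (h2 : ∀ l, l.map (fun p => decide (∃ b, R2 V p b = true)) ∈ e2 l)
    {a : α} {u : List Bool} (hC : ∀ i ≤ u.length, (cands e2 a u (tabs e2 a u i)).length ≤ 2 ^ u.length)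
    (h : ∃ z < 2 ^ u.length, V a z = true) : decideV V e1 e2 a u = true := by
  have hsucc : ∀ i < u.length, tabs e2 a u (i + 1) = step e2 a u (tabs e2 a u i) := by
    intro i hi
    unfold tabs
    rw [min_eq_left (by omega), min_eq_left hi.le, Function.iterate_succ_apply']
  have key : ∀ i ≤ u.length, (tabs e2 a u i).length = i ∧
      ((∃ k < i, found V e1 a u (tabs e2 a u k) = true) ∨
        ∃ z < Zp u.length i, V a (G u.length (tabs e2 a u i) z) = true) := by
    intro i hi
    induction i with
    | zero =>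
      obtain ⟨z, hz, h⟩ := h
      exact ⟨by simp [tabs], Or.inr ⟨z, by simp [Zp]; omega, by simpa [tabs, G] using h⟩⟩
    | succ i ih =>
      obtain ⟨h3, h4⟩ := ih (by omega)
      rw [hsucc i hi]
      refine ⟨by simp [step, h3], ?_⟩
      rcases h4 with ⟨k, hk, h4⟩ | h4
      · exact Or.inl ⟨k, by omega, h4⟩
      · rcases step_complete h1 h2 (by omega) (hC i (by omega)) (by rw [h3]; exact h4) with h5 | h5
        · exact Or.inl ⟨i, by omega, h5⟩
        · exact Or.inr (by rwa [h3] at h5)
  simp only [decideV, Bool.or_eq_true, List.any_eq_true, List.mem_range]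
  refine (key _ le_rfl).2.imp id ?_
  rintro ⟨z, hz, h3⟩
  exact ⟨z, by simp [Zp] at hz; omega, h3⟩

/-- bounded search is polynomial when all NP languages are enumerable -/
theorem exists_search [Dec α] (H : ∀ A ∈ NP, Enum A) (hV : PT fun p : α × ℕ => V p.1 p.2)
    {n : α → ℕ} (hn : PT n) (bn : PB n) :
    ∃ D : α → Bool, PT D ∧ ∀ a, ((∃ z < 2 ^ n a, V a z = true) → D a = true) ∧
      (D a = true → ∃ z, V a z = true) := by
  obtain ⟨e1, he1, h1⟩ := exists_enum H (R1 V) (R1_pt hV)
    (fun p => sp p.2.1.length * (2 * sz (Zp p.2.1.length p.2.2.1.length) + 1)) (by fun_prop)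
    (fun p l h => by
      simp only [R1, Bool.and_eq_true, decide_eq_true_eq, List.all_eq_true] at h
      exact (sz_list_le fun z hz => sz_nat_mono (h.1.2 z hz).1.1.le).trans
        (Nat.mul_le_mul_right _ h.1.1.1.2))
  obtain ⟨e2, he2, h2⟩ := exists_enum H (R2 V) (R2_pt hV)
    (fun p => sz (Zp p.2.1.length p.2.2.1.length / qp p.2.1.length + 1)) (by fun_prop)
    (fun p l h => by
      simp only [R2, Bool.and_eq_true, decide_eq_true_eq] at h
      exact sz_nat_mono h.1.le)
  obtain ⟨C, hC⟩ := PB_le_two_pow (g := fun p : (α × List Bool) × ℕ =>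
    (cands e2 p.1.1 p.1.2 (tabs e2 p.1.1 p.1.2 p.2)).length) (PB.length (cands_pt he2
      (by fun_prop) (by fun_prop) (tabs_pt he2 (by fun_prop) (by fun_prop) (by fun_prop)))) 11
  refine ⟨fun a => decideV V e1 e2 a (List.replicate (n a + sz a + C) true),
    decideV_pt hV he1 he2 (by fun_prop) (by fun_prop), fun a => ⟨?_, decideV_sound⟩⟩
  rintro ⟨z, hz, h⟩
  refine decideV_complete h1 h2 (fun i hi => ?_) ⟨z, hz.trans_le
    (Nat.pow_le_pow_right two_pos (by simp; omega)), h⟩
  refine hC _ (by simp) ((a, _), i) ?_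
  have := sz_nat_le i
  simp only [sz_pair, sz_listBool, List.length_replicate] at *
  omega

end search

/-- the string coded by a number -/
def wit (z : ℕ) : List Bool := z.bits.dropLast

@[fun_prop] theorem wit_pt {α : Type} [N487b59b3 α] {z : α → ℕ} (hz : PT z) :
    PT (fun a => wit (z a)) := by unfold wit; fun_prop

theorem exists_wit (w : List Bool) : ∃ z < 2 ^ (w.length + 1), wit z = w := by
  refine ⟨val (w ++ [true]), by simpa using val_lt (w ++ [true]), ?_⟩
  have : (val (w ++ [true])).bits = w ++ [true] := by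
    induction w with
    | nil => simp [val]
    | cons b w ih =>
      have h0 : val (w ++ [true]) ≠ 0 := by
        intro h
        rw [h] at ih
        simp at ih
      simp only [List.cons_append, val]
      cases b
      · simp [Nat.bit0_bits _ h0, ih]
      · simp [Nat.add_comm 1, Nat.bit1_bits, ih]
  simp [wit, this]

theorem P_subset_NP : P ⊆ NP := fun L hL =>
  ⟨0, fun p => L p.1, PT.isPolyTime ((PT.ofIsPolyTime hL).comp' (by fun_prop)), fun x =>
    ⟨fun h => ⟨[], by simp, h⟩, fun ⟨_, _, h⟩ => h⟩⟩

/-- if all NP languages are enumerable then `P = NP` -/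
theorem P_eq_NP_of_enum (H : ∀ A ∈ NP, Enum A) : P = NP := by
  refine Set.Subset.antisymm P_subset_NP ?_
  rintro L ⟨p, R, hR, hL⟩
  have hR' := PT.ofIsPolyTime hR
  have h1 : PT fun x : List Bool => p.eval x.length := pt_eval p (by fun_prop)
  obtain ⟨D, hD, h⟩ := exists_search (V := fun x z =>
    decide ((wit z).length ≤ p.eval x.length) && R (x, wit z)) H
    (PT.and (PT.decide_le (by fun_prop) (h1.comp' (f := Prod.fst) (by fun_prop)))
      (hR'.comp' (by fun_prop)))
    (n := fun x => p.eval x.length + 1) (by fun_prop) ((pb_eval p (by fun_prop)).add (PB.const 1))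
  refine PT.isPolyTime (hD.of_eq fun x => Bool.eq_iff_iff.2 ⟨fun h2 => ?_, fun h2 => ?_⟩)
  · obtain ⟨z, hz⟩ := (h x).2 h2
    simp only [Bool.and_eq_true, decide_eq_true_eq] at hz
    exact (hL x).2 ⟨_, hz⟩
  · obtain ⟨w, hw, h3⟩ := (hL x).1 h2
    obtain ⟨z, hz, rfl⟩ := exists_wit w
    exact (h x).1 ⟨z, hz.trans_le (Nat.pow_le_pow_right two_pos (by omega)), by simp [hw, h3]⟩

end Pool.Agent.Lib.MP_8f56c4_lc.H3
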